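import Pool.Agent.H239.SP.Part6

set_option autoImplicit false
set_option linter.unusedSectionVars false

/-!
# Circuits for products of two matrices of polynomials in the same variables: mixed derivatives
-/

namespace Pool.Agent.H239.MX

open Finset MvPolynomial Pool.Agent.H522R2 Pool.Agent.H522R2.Circuit Pool.Agent.W956.KF
  Pool.Agent.H88R3.MM
open Pool.Agent.H239.SP (comps fst_mem_comps snd_mem_comps comps_mono cost_dual)

variable {K : Type} [Field K] {V : Type} [Fintype V] [DecidableEq V]

/-- The directional derivative of the polynomial `z` at the point `L` in the direction `b`. -/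
noncomputable def dD {R : Type} [CommRing R] [Algebra K R] (L : V → K) (b : V → R)
    (z : MvPolynomial V K) : R :=
  ∑ p, algebraMap K R (MvPolynomial.eval L (pderiv p z)) * b p

/-- Substitution of `L + δ b`. -/
noncomputable def pB {R : Type} [CommRing R] [Algebra K R] (L : V → K) (b : V → R) :
    MvPolynomial V K →ₐ[K] DualNumber R :=
  aeval fun p => TrivSqZeroExt.inl (algebraMap K R (L p)) + TrivSqZeroExt.inr (b p)

theorem pB_fst {R : Type} [CommRing R] [Algebra K R] (L : V → K) (b : V → R)
    (z : MvPolynomial V K) : (pB L b z).fst = algebraMap K R (MvPolynomial.eval L z) := by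
  induction z using MvPolynomial.induction_on with
  | C c => simp [pB, TrivSqZeroExt.algebraMap_eq_inl']
  | add x y hx hy => rw [map_add, TrivSqZeroExt.fst_add, hx, hy, map_add, map_add]
  | mul_X x p hx =>
    rw [map_mul, TrivSqZeroExt.fst_mul, hx, map_mul, map_mul]
    simp [pB]

theorem dD_mul_X {R : Type} [CommRing R] [Algebra K R] (L : V → K) (b : V → R)
    (x : MvPolynomial V K) (p : V) :
    dD L b (x * X p) = algebraMap K R (MvPolynomial.eval L x) * b p +
      dD L b x * algebraMap K R (L p) := by
  unfold dD
  simp only [Derivation.leibniz, smul_eq_mul, MvPolynomial.pderiv_X, map_add, map_mul, eval_X]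
  simp only [add_mul, Finset.sum_add_distrib]
  congr 1
  · rw [Finset.sum_eq_single p]
    · simp
    · intro q _ hq
      simp [Ne.symm hq]
    · simp
  · rw [Finset.sum_mul]
    refine Finset.sum_congr rfl fun q _ => ?_
    ring

theorem dD_add {R : Type} [CommRing R] [Algebra K R] (L : V → K) (b : V → R)
    (x y : MvPolynomial V K) : dD L b (x + y) = dD L b x + dD L b y := by
  unfold dD
  simp only [map_add, add_mul, Finset.sum_add_distrib]

theorem dD_C {R : Type} [CommRing R] [Algebra K R] (L : V → K) (b : V → R) (c : K) :
    dD L b (C c) = 0 := by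
  unfold dD
  simp

theorem pB_snd {R : Type} [CommRing R] [Algebra K R] (L : V → K) (b : V → R)
    (z : MvPolynomial V K) : (pB L b z).snd = dD L b z := by
  induction z using MvPolynomial.induction_on with
  | C c =>
    rw [dD_C]
    simp [pB, TrivSqZeroExt.algebraMap_eq_inl']
  | add x y hx hy => rw [map_add, TrivSqZeroExt.snd_add, hx, hy, dD_add]
  | mul_X x p hx =>
    rw [map_mul, TrivSqZeroExt.snd_mul, hx, pB_fst, dD_mul_X]
    have h1 : (pB L b (X p)).snd = b p := by simp [pB]
    have h2 : (pB L b (X p)).fst = algebraMap K R (L p) := by simp [pB]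
    rw [h1, h2]
    simp only [smul_eq_mul, MulOpposite.smul_eq_mul_unop, MulOpposite.unop_op]

/-- Substitution of `L + ε a + δ b` (the outer dual number is `ε`). -/
noncomputable def ph {R : Type} [CommRing R] [Algebra K R] (L : V → K) (a b : V → R) :
    MvPolynomial V K →ₐ[K] DualNumber (DualNumber R) :=
  aeval fun p => ((TrivSqZeroExt.inl
    (TrivSqZeroExt.inl (algebraMap K R (L p)) + TrivSqZeroExt.inr (b p) : DualNumber R) +
    TrivSqZeroExt.inr (TrivSqZeroExt.inl (a p) : DualNumber R)) : DualNumber (DualNumber R))

theorem ph_fst {R : Type} [CommRing R] [Algebra K R] (L : V → K) (a b : V → R)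
    (z : MvPolynomial V K) : (ph L a b z).fst = pB L b z := by
  induction z using MvPolynomial.induction_on with
  | C c => simp [pB, ph, TrivSqZeroExt.algebraMap_eq_inl']
  | add x y hx hy => rw [map_add, TrivSqZeroExt.fst_add, hx, hy, map_add]
  | mul_X x p hx =>
    rw [map_mul, TrivSqZeroExt.fst_mul, hx, map_mul]
    simp [pB, ph]

theorem ph_snd_fst {R : Type} [CommRing R] [Algebra K R] (L : V → K) (a b : V → R)
    (z : MvPolynomial V K) : (ph L a b z).snd.fst = dD L a z := by
  have h : ∀ z : MvPolynomial V K, (ph L a b z).snd.fst = (pB L a z).snd := by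
    intro z
    induction z using MvPolynomial.induction_on with
    | C c => simp [pB, ph, TrivSqZeroExt.algebraMap_eq_inl']
    | add x y hx hy =>
      rw [map_add, TrivSqZeroExt.snd_add, TrivSqZeroExt.fst_add, hx, hy, map_add,
        TrivSqZeroExt.snd_add]
    | mul_X x p hx =>
      rw [map_mul, TrivSqZeroExt.snd_mul, map_mul, TrivSqZeroExt.snd_mul, TrivSqZeroExt.fst_add,
        ← hx, pB_fst]
      have e1 : (ph L a b x).fst.fst = algebraMap K R (MvPolynomial.eval L x) := by
        rw [ph_fst, pB_fst]
      simp only [smul_eq_mul, MulOpposite.smul_eq_mul_unop, MulOpposite.unop_op,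
        TrivSqZeroExt.fst_mul, e1]
      simp [pB, ph]
  rw [h, pB_snd]

/-- The mixed second derivative at `L` in the directions `a` and `b`. -/
noncomputable def mix {R : Type} [CommRing R] [Algebra K R] (L : V → K) (a b : V → R)
    (z : MvPolynomial V K) : R := (ph L a b z).snd.snd

theorem mix_mul {R : Type} [CommRing R] [Algebra K R] (L : V → K) (a b : V → R)
    (x y : MvPolynomial V K) : mix L a b (x * y) =
      algebraMap K R (MvPolynomial.eval L x) * mix L a b y +
      algebraMap K R (MvPolynomial.eval L y) * mix L a b x +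
      (dD L a x * dD L b y + dD L a y * dD L b x) := by
  have e : ∀ z, (ph L a b z).fst.fst = algebraMap K R (MvPolynomial.eval L z) := fun z => by
    rw [ph_fst, pB_fst]
  have e' : ∀ z, (ph L a b z).fst.snd = dD L b z := fun z => by
    rw [ph_fst, pB_snd]
  have e'' : ∀ z, (ph L a b z).snd.fst = dD L a z := fun z => ph_snd_fst L a b z
  unfold mix
  rw [map_mul, TrivSqZeroExt.snd_mul, TrivSqZeroExt.snd_add]
  simp only [smul_eq_mul, MulOpposite.smul_eq_mul_unop, MulOpposite.unop_op,
    TrivSqZeroExt.snd_mul, e, e', e'']
  ring

theorem mix_add {R : Type} [CommRing R] [Algebra K R] (L : V → K) (a b : V → R)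
    (x y : MvPolynomial V K) : mix L a b (x + y) = mix L a b x + mix L a b y := by
  unfold mix
  rw [map_add, TrivSqZeroExt.snd_add, TrivSqZeroExt.snd_add]

theorem mix_C {R : Type} [CommRing R] [Algebra K R] (L : V → K) (a b : V → R) (c : K) :
    mix L a b (C c) = 0 := by
  unfold mix
  simp [ph, TrivSqZeroExt.algebraMap_eq_inl']

theorem mix_X {R : Type} [CommRing R] [Algebra K R] (L : V → K) (a b : V → R) (v : V) :
    mix L a b (X v) = 0 := by
  unfold mix
  simp [ph]

theorem mix_zero {R : Type} [CommRing R] [Algebra K R] (L : V → K) (a b : V → R) :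
    mix L a b (0 : MvPolynomial V K) = 0 := by
  unfold mix
  simp

theorem mix_sum {R : Type} [CommRing R] [Algebra K R] {ι : Type} (s : Finset ι) (L : V → K)
    (a b : V → R) (f : ι → MvPolynomial V K) :
    mix L a b (∑ i ∈ s, f i) = ∑ i ∈ s, mix L a b (f i) := by
  unfold mix
  rw [map_sum, TrivSqZeroExt.snd_sum, TrivSqZeroExt.snd_sum]

theorem dD_X {R : Type} [CommRing R] [Algebra K R] (L : V → K) (b : V → R) (v : V) :
    dD L b (X v) = b v := by
  have h := dD_mul_X L b (1 : MvPolynomial V K) v
  have h1 : dD L b (1 : MvPolynomial V K) = 0 := by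
    have := dD_C (R := R) L b (1 : K)
    rwa [C_1] at this
  rw [one_mul, h1, zero_mul, add_zero, map_one, map_one, one_mul] at h
  exact h

theorem mix_mul_X {R : Type} [CommRing R] [Algebra K R] (L : V → K) (a b : V → R)
    (x : MvPolynomial V K) (v : V) : mix L a b (x * X v) =
      algebraMap K R (L v) * mix L a b x + (dD L a x * b v + a v * dD L b x) := by
  rw [mix_mul, mix_X, mul_zero, zero_add, eval_X, dD_X, dD_X]

/-! ### Polynomials in one variable -/

theorem dD_aeval {R : Type} [CommRing R] [Algebra K R] (L : V → K) (b : V → R) (v : V)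
    (P : Polynomial K) : dD L b (Polynomial.aeval (X v : MvPolynomial V K) P) =
      algebraMap K R ((Polynomial.derivative P).eval (L v)) * b v := by
  have h1 : ∀ R : Polynomial K, MvPolynomial.eval L
      (Polynomial.aeval (X v : MvPolynomial V K) R) = R.eval (L v) := by
    intro R
    induction R using Polynomial.induction_on' with
    | add p q hp hq => rw [map_add, map_add, hp, hq, Polynomial.eval_add]
    | monomial k a =>
      rw [Polynomial.aeval_monomial, map_mul, map_pow, eval_X, Polynomial.eval_monomial,
        MvPolynomial.algebraMap_eq, eval_C]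
  induction P using Polynomial.induction_on with
  | C a =>
    rw [Polynomial.aeval_C, MvPolynomial.algebraMap_eq, dD_C]
    simp
  | add p q hp hq =>
    rw [map_add, dD_add, hp, hq, map_add, Polynomial.eval_add, map_add, add_mul]
  | monomial k a ih =>
    have e : Polynomial.C a * Polynomial.X ^ (k + 1) =
        (Polynomial.C a * Polynomial.X ^ k) * Polynomial.X := by ring
    have e2 : Polynomial.derivative ((Polynomial.C a * Polynomial.X ^ k) * Polynomial.X) =
        Polynomial.derivative (Polynomial.C a * Polynomial.X ^ k) * Polynomial.X +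
          Polynomial.C a * Polynomial.X ^ k := by
      rw [Polynomial.derivative_mul (f := Polynomial.C a * Polynomial.X ^ k),
        Polynomial.derivative_X, mul_one]
    rw [e, map_mul, Polynomial.aeval_X, dD_mul_X, ih, h1, e2]
    simp only [Polynomial.eval_add, Polynomial.eval_mul (p := Polynomial.derivative _),
      Polynomial.eval_X, map_add, map_mul]
    ring

theorem mix_aeval {R : Type} [CommRing R] [Algebra K R] (L : V → K) (a b : V → R) (v : V)
    (hv : a v * b v = 0) (P : Polynomial K) :
    mix L a b (Polynomial.aeval (X v : MvPolynomial V K) P) = 0 := by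
  induction P using Polynomial.induction_on with
  | C c => rw [Polynomial.aeval_C, MvPolynomial.algebraMap_eq, mix_C]
  | add p q hp hq => rw [map_add, mix_add, hp, hq, add_zero]
  | monomial k c ih =>
    have e : Polynomial.C c * Polynomial.X ^ (k + 1) =
        (Polynomial.C c * Polynomial.X ^ k) * Polynomial.X := by ring
    rw [e, map_mul, Polynomial.aeval_X, mix_mul_X, ih, dD_aeval, dD_aeval, mul_zero, zero_add,
      mul_assoc, hv, mul_zero, zero_add, mul_left_comm, hv, mul_zero]

end Pool.Agent.H239.MX
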