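import Pool.Agent.H239.MX.Part1

set_option autoImplicit false
set_option linter.unusedSectionVars false

namespace Pool.Agent.H239.MX

open Finset MvPolynomial Pool.Agent.H522R2 Pool.Agent.H522R2.Circuit Pool.Agent.W956.KF
  Pool.Agent.H88R3.MM
open Pool.Agent.H239.SP (comps fst_mem_comps snd_mem_comps comps_mono cost_dual rankLE_of_fintype)

variable {K : Type} [Field K] {V : Type} [Fintype V] [DecidableEq V] {m : ℕ}

/-! ### Generic directions -/

/-- direction with entries linear in the left matrix -/
noncomputable def aF (α : V → Fin m × Fin m → K) (v : V) : MvPolynomial (Vars m) K :=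
  ∑ q, C (α v q) * X (Sum.inl q)

/-- direction with entries linear in the right matrix -/
noncomputable def bF (β : V → Fin m × Fin m → K) (v : V) : MvPolynomial (Vars m) K :=
  ∑ q, C (β v q) * X (Sum.inr q)

theorem dD_aF (L : V → K) (α : V → Fin m × Fin m → K) (z : MvPolynomial V K) :
    dD L (aF α) z = ∑ q, C (dD L (fun v => α v q) z) * X (Sum.inl q) := by
  unfold dD aF
  simp only [Finset.mul_sum, map_sum, map_mul, Finset.sum_mul]
  rw [Finset.sum_comm]
  refine Finset.sum_congr rfl fun q _ => Finset.sum_congr rfl fun p _ => ?_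
  rw [MvPolynomial.algebraMap_eq]
  simp only [Algebra.algebraMap_self, RingHom.id_apply]
  ring

theorem dD_bF (L : V → K) (β : V → Fin m × Fin m → K) (z : MvPolynomial V K) :
    dD L (bF β) z = ∑ q, C (dD L (fun v => β v q) z) * X (Sum.inr q) := by
  unfold dD bF
  simp only [Finset.mul_sum, map_sum, map_mul, Finset.sum_mul]
  rw [Finset.sum_comm]
  refine Finset.sum_congr rfl fun q _ => Finset.sum_congr rfl fun p _ => ?_
  rw [MvPolynomial.algebraMap_eq]
  simp only [Algebra.algebraMap_self, RingHom.id_apply]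
  ring

theorem mix_generic (L : V → K) (α β : V → Fin m × Fin m → K) (z : MvPolynomial V K) :
    mix L (aF α) (bF β) z = ∑ q : Fin m × Fin m, ∑ q' : Fin m × Fin m,
      C (mix L (fun v => α v q) (fun v => β v q') z) * (X (Sum.inl q) * X (Sum.inr q')) := by
  induction z using MvPolynomial.induction_on with
  | C c => simp [mix_C]
  | add x y hx hy =>
    rw [mix_add, hx, hy]
    simp only [mix_add, map_add, add_mul, Finset.sum_add_distrib]
  | mul_X x v hx =>
    have hc : ∀ q q' : Fin m × Fin m, mix L (fun v => α v q) (fun v => β v q') (x * X v) =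
        L v * mix L (fun v => α v q) (fun v => β v q') x +
          (dD L (fun v => α v q) x * β v q' + α v q * dD L (fun v => β v q') x) := by
      intro q q'
      rw [mix_mul_X]
      rfl
    have e1 : mix L (aF α) (bF β) (x * X v) = C (L v) * mix L (aF α) (bF β) x +
        (dD L (aF α) x * bF β v + aF α v * dD L (bF β) x) := by
      rw [mix_mul_X]
      rfl
    rw [e1, hx, dD_aF, dD_bF]
    unfold aF bF
    rw [Finset.sum_mul_sum, Finset.sum_mul_sum, Finset.mul_sum, ← Finset.sum_add_distrib,
      ← Finset.sum_add_distrib]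
    refine Finset.sum_congr rfl fun q _ => ?_
    rw [Finset.mul_sum, ← Finset.sum_add_distrib, ← Finset.sum_add_distrib]
    refine Finset.sum_congr rfl fun q' _ => ?_
    rw [hc]
    simp only [map_add, map_mul]
    ring

/-! ### The number of operations -/

/-- The data of a reduction: finitely many calls `c`, points `L c`, directions `α c`, `β c`, and for all
positions `(i, k)` of the product an output `z c i k`. -/
def Reduces {ι : Type} [Fintype ι] (Out : Set (MvPolynomial V K)) (L : ι → V → K)
    (α β : ι → V → Fin m × Fin m → K) (z : ι → Fin m → Fin m → MvPolynomial V K) : Prop :=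
  (∀ c i k, z c i k ∈ Out ∨ z c i k = 0) ∧
  ∀ i i' j j' k k' : Fin m, ∑ c, mix (L c) (fun v => α c v (i, j)) (fun v => β c v (j', k))
    (z c i' k') = if i = i' ∧ j = j' ∧ k = k' then 1 else 0

theorem sum_mix {ι : Type} [Fintype ι] {Out : Set (MvPolynomial V K)} {L : ι → V → K}
    {α β : ι → V → Fin m × Fin m → K} {z : ι → Fin m → Fin m → MvPolynomial V K}
    (H : Reduces Out L α β z) (i k : Fin m) :
    ∑ c, mix (L c) (aF (α c)) (bF (β c)) (z c i k) = entryMM K m i k := by
  simp only [mix_generic]
  rw [Finset.sum_comm]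
  have h1 : ∀ q : Fin m × Fin m, ∑ c, ∑ q' : Fin m × Fin m,
      C (mix (L c) (fun v => α c v q) (fun v => β c v q') (z c i k)) *
        (X (Sum.inl q) * X (Sum.inr q') : MvPolynomial (Vars m) K) =
      if q.1 = i then X (Sum.inl (i, q.2)) * X (Sum.inr (q.2, k)) else 0 := by
    intro q
    rw [Finset.sum_comm]
    have h2 : ∀ q' : Fin m × Fin m, ∑ c,
        C (mix (L c) (fun v => α c v q) (fun v => β c v q') (z c i k)) *
          (X (Sum.inl q) * X (Sum.inr q') : MvPolynomial (Vars m) K) =
        if q' = (q.2, k) then (if q.1 = i then X (Sum.inl q) * X (Sum.inr q') else 0) else 0 := by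
      intro q'
      rw [← Finset.sum_mul, ← map_sum]
      have h3 := H.2 q.1 i q.2 q'.1 q'.2 k
      simp only [Prod.mk.eta] at h3
      rw [h3]
      by_cases hq : q' = (q.2, k)
      · rw [if_pos hq]
        by_cases hi : q.1 = i
        · rw [if_pos hi, if_pos ⟨hi, by rw [hq], by rw [hq]⟩, map_one, one_mul]
        · rw [if_neg hi, if_neg (fun h => hi h.1), map_zero, zero_mul]
      · rw [if_neg hq, if_neg, map_zero, zero_mul]
        rintro ⟨-, h4, h5⟩
        exact hq (Prod.ext h4.symm h5)
    rw [Finset.sum_congr rfl fun q' _ => h2 q', Finset.sum_ite_eq' Finset.univ (q.2, k)]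
    rw [if_pos (Finset.mem_univ _)]
    by_cases hi : q.1 = i
    · rw [if_pos hi, if_pos hi, ← hi]
    · rw [if_neg hi, if_neg hi]
  rw [Finset.sum_congr rfl fun q _ => h1 q, Fintype.sum_prod_type]
  rw [Finset.sum_eq_single i]
  · unfold entryMM
    refine Finset.sum_congr rfl fun j _ => ?_
    rw [if_pos rfl]
  · intro i' _ hi'
    refine Finset.sum_eq_zero fun j _ => ?_
    rw [if_neg hi']
  · simp

/-- **Number of operations.** -/
theorem core_cost {ι : Type} [Fintype ι] {Out : Set (MvPolynomial V K)} {L : ι → V → K}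
    {α β : ι → V → Fin m × Fin m → K} {z : ι → Fin m → Fin m → MvPolynomial V K}
    (H : Reduces Out L α β z) {s cG : ℕ} (hC : Cost (inputs K V) Out s)
    (hG : Cost (inputs K (Vars m))
      (Set.range (fun t : ι × V => aF (α t.1) t.2) ∪ Set.range (fun t : ι × V => bF (β t.1) t.2))
      cG) :
    Cost (inputs K (Vars m)) (outMM K m)
      (cG + (Fintype.card ι * (16 * s) + m ^ 2 * Fintype.card ι)) := by
  classical
  set T : Set (MvPolynomial (Vars m) K) := inputs K (Vars m) ∪
    (Set.range (fun t : ι × V => aF (α t.1) t.2) ∪ Set.range (fun t : ι × V => bF (β t.1) t.2))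
    with hT
  have h0 : (0 : MvPolynomial (Vars m) K) ∈ inputs K (Vars m) := Or.inr ⟨0, map_zero _⟩
  let P : ι → Set (MvPolynomial (Vars m) K) := fun c =>
    {y | ∃ z ∈ Out, y = mix (L c) (aF (α c)) (bF (β c)) z}
  have hP : ∀ c, Cost T (P c) (16 * s) := by
    intro c
    have h1 := cost_dual (cost_dual (hC.map (ph (L c) (aF (α c)) (bF (β c))).toRingHom))
    refine h1.mono ?_ ?_ (by omega)
    · have hin : ∀ z ∈ inputs K V,
          (ph (L c) (aF (α c)) (bF (β c)) z).fst.fst ∈ T ∧
          (ph (L c) (aF (α c)) (bF (β c)) z).fst.snd ∈ T ∧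
          (ph (L c) (aF (α c)) (bF (β c)) z).snd.fst ∈ T ∧
          (ph (L c) (aF (α c)) (bF (β c)) z).snd.snd ∈ T := by
        rintro _ (⟨p, rfl⟩ | ⟨x, rfl⟩)
        · have e1 : (ph (L c) (aF (α c)) (bF (β c)) (X p)).fst.fst = C (L c p) := by
            simp [ph, MvPolynomial.algebraMap_eq]
          have e2 : (ph (L c) (aF (α c)) (bF (β c)) (X p)).fst.snd = bF (β c) p := by
            simp [ph]
          have e3 : (ph (L c) (aF (α c)) (bF (β c)) (X p)).snd.fst = aF (α c) p := by
            simp [ph]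
          have e4 : (ph (L c) (aF (α c)) (bF (β c)) (X p)).snd.snd = 0 := by
            simp [ph]
          rw [e1, e2, e3, e4]
          exact ⟨Or.inl (Or.inr ⟨_, rfl⟩), Or.inr (Or.inr ⟨(c, p), rfl⟩),
            Or.inr (Or.inl ⟨(c, p), rfl⟩), Or.inl h0⟩
        · have e1 : ph (L c) (aF (α c)) (bF (β c)) (C x) =
              TrivSqZeroExt.inl (TrivSqZeroExt.inl (C x)) := by
            have : ph (L c) (aF (α c)) (bF (β c)) (C x) =
              algebraMap K (DualNumber (DualNumber (MvPolynomial (Vars m) K))) x := by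
              rw [← MvPolynomial.algebraMap_eq, AlgHom.commutes]
            rw [this]
            rfl
          rw [e1]
          exact ⟨Or.inl (Or.inr ⟨x, rfl⟩), Or.inl h0, Or.inl h0, Or.inl h0⟩
      rintro w (⟨_, (⟨_, ⟨z, hz, rfl⟩, rfl⟩ | ⟨_, ⟨z, hz, rfl⟩, rfl⟩), rfl⟩ |
        ⟨_, (⟨_, ⟨z, hz, rfl⟩, rfl⟩ | ⟨_, ⟨z, hz, rfl⟩, rfl⟩), rfl⟩)
      · exact (hin z hz).1
      · exact (hin z hz).2.2.1
      · exact (hin z hz).2.1
      · exact (hin z hz).2.2.2
    · rintro y ⟨z, hz, rfl⟩
      exact snd_mem_comps (snd_mem_comps ⟨z, hz, rfl⟩)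
  have hPall : Cost T (⋃ c, P c) (Fintype.card ι * (16 * s)) := Cost.iUnion hP
  have hout : Cost (T ∪ ⋃ c, P c) (outMM K m) (Fintype.card (Fin m × Fin m) *
      Fintype.card ι) := by
    refine Cost.range fun t => ?_
    obtain ⟨i, k⟩ := t
    simp only
    rw [← sum_mix H i k]
    have h3 := Cost.sum (T := T ∪ ⋃ c, P c) (Or.inl (Or.inl h0)) (Finset.univ : Finset ι)
      (fun c => mix (L c) (aF (α c)) (bF (β c)) (z c i k))
      (fun c _ => by
        rcases H.1 c i k with h | h
        · exact Or.inr (Set.mem_iUnion.2 ⟨c, z c i k, h, rfl⟩)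
        · simp only [h, mix_zero]
          exact Or.inl (Or.inl h0))
    rw [Finset.card_univ] at h3
    exact h3
  refine ((hG.comp (hPall.comp hout)).mono subset_rfl ?_ (le_of_eq ?_))
  · exact Set.subset_union_of_subset_right Set.subset_union_right _
  · simp only [Fintype.card_prod, Fintype.card_fin]
    ring

/-! ### The rank -/

/-- the directional derivative as a linear form -/
noncomputable def lD (L : V → K) (z : MvPolynomial V K) : (V → K) →ₗ[K] K :=
  ∑ p, MvPolynomial.eval L (pderiv p z) • LinearMap.proj p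

theorem lD_apply (L : V → K) (z : MvPolynomial V K) (b : V → K) : lD L z b = dD L b z := by
  unfold lD dD
  simp

theorem mix_mul' (L a b : V → K) (x y : MvPolynomial V K) :
    mix L a b (x * y) = MvPolynomial.eval L x * mix L a b y +
      MvPolynomial.eval L y * mix L a b x +
      (lD L x a * lD L y b + lD L y a * lD L x b) := by
  rw [mix_mul]
  simp only [lD_apply, Algebra.algebraMap_self, RingHom.id_apply]

theorem reach_rank (L : V → K) {s : ℕ} {T' : Set (MvPolynomial V K)}
    (h : Reach (inputs K V) s T') :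
    ∃ u w : ℕ → ((V → K) →ₗ[K] K), ∀ z ∈ T', ∃ α : ℕ → K, ∀ a b,
      mix L a b z = ∑ t ∈ range s, α t * (u t a * w t b + w t a * u t b) := by
  induction h with
  | refl =>
    refine ⟨0, 0, ?_⟩
    rintro _ (⟨p, rfl⟩ | ⟨c, rfl⟩)
    · exact ⟨0, fun a b => by simp [mix_X]⟩
    · exact ⟨0, fun a b => by simp [mix_C]⟩
  | @add s T' x y h hx hy ih =>
    obtain ⟨u, w, ih⟩ := ih
    refine ⟨u, w, ?_⟩
    have hold : ∀ z ∈ T', ∃ α : ℕ → K, ∀ a b, mix L a b z =
        ∑ t ∈ range (s + 1), α t * (u t a * w t b + w t a * u t b) := by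
      intro z hz
      obtain ⟨α, hα⟩ := ih z hz
      refine ⟨fun t => if t = s then 0 else α t, fun a b => ?_⟩
      rw [hα, sum_range_succ]
      beta_reduce
      rw [if_pos rfl, zero_mul, add_zero]
      refine Finset.sum_congr rfl fun t ht => ?_
      rw [if_neg (by have := Finset.mem_range.mp ht; omega)]
    rintro z (rfl | hz)
    · obtain ⟨α, hα⟩ := hold x hx
      obtain ⟨β, hβ⟩ := hold y hy
      refine ⟨α + β, fun a b => ?_⟩
      rw [mix_add, hα, hβ, ← Finset.sum_add_distrib]
      refine Finset.sum_congr rfl fun t _ => ?_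
      rw [Pi.add_apply]
      ring
    · exact hold z hz
  | @mul s T' x y h hx hy ih =>
    obtain ⟨u, w, ih⟩ := ih
    refine ⟨fun t => if t = s then lD L x else u t, fun t => if t = s then lD L y else w t, ?_⟩
    rintro z (rfl | hz)
    · obtain ⟨α, hα⟩ := ih x hx
      obtain ⟨β, hβ⟩ := ih y hy
      refine ⟨fun t => if t = s then 1 else
        MvPolynomial.eval L x * β t + MvPolynomial.eval L y * α t, fun a b => ?_⟩
      rw [mix_mul', hα, hβ, sum_range_succ]
      beta_reduce
      rw [if_pos rfl, if_pos rfl, if_pos rfl, one_mul,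
        Finset.mul_sum, Finset.mul_sum, ← Finset.sum_add_distrib]
      congr 1
      refine Finset.sum_congr rfl fun t ht => ?_
      have ht' : t ≠ s := by have := Finset.mem_range.mp ht; omega
      rw [if_neg ht', if_neg ht', if_neg ht']
      ring
    · obtain ⟨α, hα⟩ := ih z hz
      refine ⟨fun t => if t = s then 0 else α t, fun a b => ?_⟩
      rw [hα, sum_range_succ]
      beta_reduce
      rw [if_pos rfl, zero_mul, add_zero]
      refine Finset.sum_congr rfl fun t ht => ?_
      have ht' : t ≠ s := by have := Finset.mem_range.mp ht; omega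
      rw [if_neg ht', if_neg ht', if_neg ht']

/-- **Rank.** -/
theorem core_rank {ι : Type} [Fintype ι] {Out : Set (MvPolynomial V K)} {L : ι → V → K}
    {α β : ι → V → Fin m × Fin m → K} {z : ι → Fin m → Fin m → MvPolynomial V K}
    (H : Reduces Out L α β z) {s : ℕ} (hC : Cost (inputs K V) Out s) :
    trank K m m m ≤ 2 * Fintype.card ι * s := by
  classical
  obtain ⟨s', hs', T', hT', hsub⟩ := hC
  choose u w huw using fun c => reach_rank (L c) hT'
  have hout : ∀ c (i k : Fin m), ∃ γ : ℕ → K, ∀ a b, mix (L c) a b (z c i k) =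
      ∑ t ∈ range s', γ t * (u c t a * w c t b + w c t a * u c t b) := by
    intro c i k
    rcases H.1 c i k with h | h
    · exact huw c _ (hsub h)
    · refine ⟨0, fun a b => ?_⟩
      rw [h, mix_zero]
      simp
  choose γ hγ using hout
  have key := rankLE_of_fintype (K := K) (m := m) (J := ι × Fin s' × Fin 2)
    (fun l => Matrix.of fun i j =>
      ![u l.1 l.2.1 (fun v => α l.1 v (i, j)), w l.1 l.2.1 (fun v => α l.1 v (i, j))] l.2.2)
    (fun l => Matrix.of fun j k =>
      ![w l.1 l.2.1 (fun v => β l.1 v (j, k)), u l.1 l.2.1 (fun v => β l.1 v (j, k))] l.2.2)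
    (fun l => Matrix.of fun i k => γ l.1 i k l.2.1) ?_
  · have hcard : Fintype.card (ι × Fin s' × Fin 2) = 2 * Fintype.card ι * s' := by
      simp only [Fintype.card_prod, Fintype.card_fin]
      ring
    rw [hcard] at key
    exact (Nat.sInf_le key).trans (Nat.mul_le_mul_left _ hs')
  intro i i' j j' k k'
  rw [← H.2 i i' j j' k k', Fintype.sum_prod_type]
  refine Finset.sum_congr rfl fun c _ => ?_
  rw [hγ, Finset.sum_range, Fintype.sum_prod_type]
  refine Finset.sum_congr rfl fun t _ => ?_
  rw [Fin.sum_univ_two]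
  simp only [Matrix.of_apply, Matrix.cons_val_zero, Matrix.cons_val_one]
  ring

end Pool.Agent.H239.MX
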