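import Pool.Agent.H239.MX.Part2

set_option autoImplicit false
set_option linter.unusedSectionVars false

namespace Pool.Agent.H239.MX

open Finset MvPolynomial Pool.Agent.H522R2 Pool.Agent.H522R2.Circuit Pool.Agent.W956.KF
  Pool.Agent.H88R3.MM

variable {K : Type} [Field K] {V : Type} [Fintype V] [DecidableEq V] {m : ℕ}

/-- The `m × m` matrix whose entry at the position `x` is the polynomial `p x` evaluated at the
variable `π x`. -/
noncomputable def pMat (π : Fin m × Fin m → V) (p : Fin m × Fin m → Polynomial K)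
    (i j : Fin m) : MvPolynomial V K :=
  Polynomial.aeval (X (π (i, j)) : MvPolynomial V K) (p (i, j))

/-- The entries of the product of two such matrices. -/
noncomputable def pEntry (π : Fin m × Fin m → V) (p : Fin m × Fin m → Polynomial K)
    (ρ : Fin m × Fin m → V) (q : Fin m × Fin m → Polynomial K) (i k : Fin m) :
    MvPolynomial V K :=
  ∑ j, pMat π p i j * pMat ρ q j k

/-- outputs of a circuit for the product -/
def pOut (π : Fin m × Fin m → V) (p : Fin m × Fin m → Polynomial K) (ρ : Fin m × Fin m → V)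
    (q : Fin m × Fin m → Polynomial K) : Set (MvPolynomial V K) :=
  Set.range fun t : Fin m × Fin m => pEntry π p ρ q t.1 t.2

/-- The positions outside `P` have polynomials whose derivative vanishes at all points (in
particular, constants are allowed). -/
def DeadOff (P : Finset (Fin m × Fin m)) (p : Fin m × Fin m → Polynomial K) : Prop :=
  ∀ x, x ∉ P → ∀ c : K, (Polynomial.derivative (p x)).eval c = 0

theorem mix_pMat (π : Fin m × Fin m → V)
    (p : Fin m × Fin m → Polynomial K) (L a b : V → K) (hab : ∀ v, a v * b v = 0) (i j : Fin m) :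
    mix L a b (pMat π p i j) = 0 := by
  unfold pMat
  exact mix_aeval L a b _ (hab _) _

theorem dD_pMat {P : Finset (Fin m × Fin m)} (π : Fin m × Fin m → V)
    {p : Fin m × Fin m → Polynomial K} (hP : DeadOff P p) (L b : V → K) (i j : Fin m) :
    dD L b (pMat π p i j) = if (i, j) ∈ P then
      (Polynomial.derivative (p (i, j))).eval (L (π (i, j))) * b (π (i, j)) else 0 := by
  unfold pMat
  rw [dD_aeval]
  split_ifs with h
  · rfl
  · rw [hP _ h]
    simp

theorem mix_pEntry {P : Finset (Fin m × Fin m)} (π : Fin m × Fin m → V)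
    {p : Fin m × Fin m → Polynomial K} (hP : DeadOff P p) {Q : Finset (Fin m × Fin m)}
    (ρ : Fin m × Fin m → V) {q : Fin m × Fin m → Polynomial K} (hQ : DeadOff Q q)
    (L a b : V → K) (hab : ∀ v, a v * b v = 0) (i k : Fin m)
    (hb : ∀ j, (i, j) ∈ P → b (π (i, j)) = 0) :
    mix L a b (pEntry π p ρ q i k) = ∑ j,
      (if (i, j) ∈ P then (Polynomial.derivative (p (i, j))).eval (L (π (i, j))) * a (π (i, j))
        else 0) *
      (if (j, k) ∈ Q then (Polynomial.derivative (q (j, k))).eval (L (ρ (j, k))) * b (ρ (j, k))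
        else 0) := by
  unfold pEntry
  rw [mix_sum]
  refine Finset.sum_congr rfl fun j _ => ?_
  rw [mix_mul, mix_pMat π p L a b hab, mix_pMat ρ q L a b hab, dD_pMat π hP, dD_pMat ρ hQ,
    dD_pMat ρ hQ, dD_pMat π hP, mul_zero, mul_zero, zero_add, zero_add]
  have h1 : (if (i, j) ∈ P then
      (Polynomial.derivative (p (i, j))).eval (L (π (i, j))) * b (π (i, j)) else 0) = 0 := by
    split_ifs with h
    · rw [hb j h, mul_zero]
    · rfl
  rw [h1, mul_zero, add_zero]

/-! ### Placement schemes -/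

/-- A placement scheme for the positions `P`, `Q` and the variables `π`, `ρ`. -/
structure Scheme (P : Finset (Fin m × Fin m)) (π : Fin m × Fin m → V)
    (Q : Finset (Fin m × Fin m)) (ρ : Fin m × Fin m → V) (c G H U W : ℕ) where
  e : Fin c → Fin m
  t : Fin m → Fin c
  g : Fin m → Fin G
  h : Fin m → Fin H
  κ : Fin m → Fin m
  σ : Fin U → Equiv.Perm (Fin c)
  τ : Fin W → Equiv.Perm (Fin m)
  u : Fin c → Fin m → Fin U
  w : Fin m → Fin m → Fin W
  e_inj : Function.Injective e
  gt_inj : ∀ i i', g i = g i' → t i = t i' → i = i'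
  hk_inj : ∀ j j', h j = h j' → κ j = κ j' → j = j'
  memP : ∀ r j, (e (σ (u r (κ j)) r), κ j) ∈ P
  memQ : ∀ j k, (κ j, τ (w (κ j) k) k) ∈ Q
  notMem : ∀ j k, ∀ x ∈ P, (∃ r, e r = x.1) → π x ≠ ρ (κ j, τ (w (κ j) k) k)

section scheme

variable {P : Finset (Fin m × Fin m)} {π : Fin m × Fin m → V}
  {Q : Finset (Fin m × Fin m)} {ρ : Fin m × Fin m → V} {c G H U W : ℕ}
  (S : Scheme P π Q ρ c G H U W) (p q : Fin m × Fin m → Polynomial K)
  (lam mu : Fin m × Fin m → K)

/-- the position at which the entry `(i, j)` of the left matrix is placed -/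
def Scheme.posL (x : Fin m × Fin m) : Fin m × Fin m :=
  (S.e (S.σ (S.u (S.t x.1) (S.κ x.2)) (S.t x.1)), S.κ x.2)

/-- the position at which the entry `(j, k)` of the right matrix is placed -/
def Scheme.posR (y : Fin m × Fin m) : Fin m × Fin m :=
  (S.κ y.1, S.τ (S.w (S.κ y.1) y.2) y.2)

open Classical in
/-- the point -/
noncomputable def Scheme.pt (v : V) : K :=
  if h : ∃ x ∈ P, (∃ r, S.e r = x.1) ∧ π x = v then lam h.choose
  else if h : ∃ y ∈ Q, ρ y = v then mu h.choose else 0

/-- coefficients of the left direction -/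
noncomputable def Scheme.ca (x : Fin m × Fin m) : K :=
  ((Polynomial.derivative (p (S.posL x))).eval (lam (S.posL x)))⁻¹

/-- coefficients of the right direction -/
noncomputable def Scheme.cb (y : Fin m × Fin m) : K :=
  ((Polynomial.derivative (q (S.posR y))).eval (mu (S.posR y)))⁻¹

/-- the left direction -/
noncomputable def Scheme.α (l : Fin G × Fin H × Fin U × Fin W) (v : V) (x : Fin m × Fin m) : K :=
  if S.g x.1 = l.1 ∧ S.h x.2 = l.2.1 ∧ S.u (S.t x.1) (S.κ x.2) = l.2.2.1 ∧ v = π (S.posL x) then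
    S.ca p lam x else 0

/-- the right direction -/
noncomputable def Scheme.β (l : Fin G × Fin H × Fin U × Fin W) (v : V) (y : Fin m × Fin m) : K :=
  if S.h y.1 = l.2.1 ∧ S.w (S.κ y.1) y.2 = l.2.2.2 ∧ v = ρ (S.posR y) then
    S.cb q mu y else 0

/-- the outputs which are used -/
noncomputable def Scheme.z (l : Fin G × Fin H × Fin U × Fin W) (i k : Fin m) :
    MvPolynomial V K :=
  if S.g i = l.1 then pEntry π p ρ q (S.e (S.σ l.2.2.1 (S.t i))) (S.τ l.2.2.2 k) else 0

theorem Scheme.posL_mem (x : Fin m × Fin m) : S.posL x ∈ P := S.memP _ _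

theorem Scheme.posR_mem (y : Fin m × Fin m) : S.posR y ∈ Q := S.memQ _ _

theorem Scheme.posL_ne_posR {x y : Fin m × Fin m} (hx : x ∈ P) (hx' : ∃ r, S.e r = x.1) :
    π x ≠ ρ (S.posR y) := S.notMem _ _ x hx hx'

theorem Scheme.pt_left (hπ : Set.InjOn π P) {x : Fin m × Fin m} (hx : x ∈ P)
    (hx' : ∃ r, S.e r = x.1) : S.pt lam mu (π x) = lam x := by
  have h1 : ∃ x' ∈ P, (∃ r, S.e r = x'.1) ∧ π x' = π x := ⟨x, hx, hx', rfl⟩
  unfold Scheme.pt
  rw [dif_pos h1]
  congr 1
  exact hπ h1.choose_spec.1 hx h1.choose_spec.2.2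

theorem Scheme.pt_right (hρ : Set.InjOn ρ Q) (y : Fin m × Fin m) :
    S.pt lam mu (ρ (S.posR y)) = mu (S.posR y) := by
  have h1 : ¬ ∃ x' ∈ P, (∃ r, S.e r = x'.1) ∧ π x' = ρ (S.posR y) := by
    rintro ⟨x', h1, h2, h3⟩
    exact S.posL_ne_posR h1 h2 h3
  have h2 : ∃ y' ∈ Q, ρ y' = ρ (S.posR y) := ⟨_, S.posR_mem y, rfl⟩
  unfold Scheme.pt
  rw [dif_neg h1, dif_pos h2]
  congr 1
  exact hρ h2.choose_spec.1 (S.posR_mem y) h2.choose_spec.2

theorem Scheme.factor_left (hπ : Set.InjOn π P)
    (hp : ∀ x ∈ P, (Polynomial.derivative (p x)).eval (lam x) ≠ 0)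
    (l : Fin G × Fin H × Fin U × Fin W) (x : Fin m × Fin m) (i' j' : Fin m) :
    (if (S.e (S.σ l.2.2.1 (S.t i')), j') ∈ P then
      (Polynomial.derivative (p (S.e (S.σ l.2.2.1 (S.t i')), j'))).eval
        (S.pt lam mu (π (S.e (S.σ l.2.2.1 (S.t i')), j'))) *
        S.α p lam l (π (S.e (S.σ l.2.2.1 (S.t i')), j')) x else 0) =
      if S.g x.1 = l.1 ∧ S.h x.2 = l.2.1 ∧ S.u (S.t x.1) (S.κ x.2) = l.2.2.1 ∧
        S.t x.1 = S.t i' ∧ j' = S.κ x.2 then 1 else 0 := by
  by_cases hc : S.g x.1 = l.1 ∧ S.h x.2 = l.2.1 ∧ S.u (S.t x.1) (S.κ x.2) = l.2.2.1 ∧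
        S.t x.1 = S.t i' ∧ j' = S.κ x.2
  · rw [if_pos hc]
    obtain ⟨h1, h2, h3, h4, h5⟩ := hc
    have e1 : (S.e (S.σ l.2.2.1 (S.t i')), j') = S.posL x := by
      unfold Scheme.posL
      rw [h3, h4, h5]
    rw [e1, if_pos (S.posL_mem x), S.pt_left lam mu hπ (S.posL_mem x) ⟨_, rfl⟩]
    unfold Scheme.α
    rw [if_pos ⟨h1, h2, h3, rfl⟩]
    exact mul_inv_cancel₀ (hp _ (S.posL_mem x))
  · rw [if_neg hc]
    by_cases hP : (S.e (S.σ l.2.2.1 (S.t i')), j') ∈ P
    · rw [if_pos hP]
      unfold Scheme.α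
      rw [if_neg, mul_zero]
      rintro ⟨h1, h2, h3, h4⟩
      apply hc
      have h5 := hπ hP (S.posL_mem x) h4
      unfold Scheme.posL at h5
      have h6 := (Prod.ext_iff.mp h5).1
      have h7 := (Prod.ext_iff.mp h5).2
      simp only at h6 h7
      rw [h3] at h6
      exact ⟨h1, h2, h3, ((S.σ _).injective (S.e_inj h6)).symm, h7⟩
    · rw [if_neg hP]

theorem Scheme.factor_right (hρ : Set.InjOn ρ Q)
    (hq : ∀ x ∈ Q, (Polynomial.derivative (q x)).eval (mu x) ≠ 0)
    (l : Fin G × Fin H × Fin U × Fin W) (y : Fin m × Fin m) (j' k' : Fin m) :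
    (if (j', S.τ l.2.2.2 k') ∈ Q then
      (Polynomial.derivative (q (j', S.τ l.2.2.2 k'))).eval
        (S.pt lam mu (ρ (j', S.τ l.2.2.2 k'))) *
        S.β q mu l (ρ (j', S.τ l.2.2.2 k')) y else 0) =
      if S.h y.1 = l.2.1 ∧ S.w (S.κ y.1) y.2 = l.2.2.2 ∧ j' = S.κ y.1 ∧ y.2 = k'
        then 1 else 0 := by
  by_cases hc : S.h y.1 = l.2.1 ∧ S.w (S.κ y.1) y.2 = l.2.2.2 ∧ j' = S.κ y.1 ∧ y.2 = k'
  · rw [if_pos hc]
    obtain ⟨h1, h2, h3, h4⟩ := hc
    have e1 : (j', S.τ l.2.2.2 k') = S.posR y := by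
      unfold Scheme.posR
      rw [h2, h4, h3]
    rw [e1, if_pos (S.posR_mem y), S.pt_right lam mu hρ]
    unfold Scheme.β
    rw [if_pos ⟨h1, h2, rfl⟩]
    exact mul_inv_cancel₀ (hq _ (S.posR_mem y))
  · rw [if_neg hc]
    by_cases hQ : (j', S.τ l.2.2.2 k') ∈ Q
    · rw [if_pos hQ]
      unfold Scheme.β
      rw [if_neg, mul_zero]
      rintro ⟨h1, h2, h3⟩
      apply hc
      have h5 := hρ hQ (S.posR_mem y) h3
      unfold Scheme.posR at h5
      have h6 := (Prod.ext_iff.mp h5).1
      have h7 := (Prod.ext_iff.mp h5).2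
      simp only at h6 h7
      rw [h2] at h7
      exact ⟨h1, h2, h6, ((S.τ _).injective h7).symm⟩
    · rw [if_neg hQ]

theorem Scheme.reduces (hP : DeadOff P p) (hQ : DeadOff Q q)
    (hπ : Set.InjOn π P) (hρ : Set.InjOn ρ Q)
    (hp : ∀ x ∈ P, (Polynomial.derivative (p x)).eval (lam x) ≠ 0)
    (hq : ∀ x ∈ Q, (Polynomial.derivative (q x)).eval (mu x) ≠ 0) :
    Reduces (pOut π p ρ q) (fun _ : Fin G × Fin H × Fin U × Fin W => S.pt lam mu)
      (S.α p lam) (S.β q mu) (S.z p q) := by
  classical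
  refine ⟨fun l i k => ?_, fun i i' j j' k k' => ?_⟩
  · unfold Scheme.z
    split_ifs
    · exact Or.inl ⟨(_, _), rfl⟩
    · exact Or.inr rfl
  have hterm : ∀ l : Fin G × Fin H × Fin U × Fin W,
      mix (S.pt lam mu) (fun v => S.α p lam l v (i, j)) (fun v => S.β q mu l v (j', k))
        (S.z p q l i' k') =
      if l = (S.g i, S.h j, S.u (S.t i) (S.κ j), S.w (S.κ j) k) then
        (if i = i' ∧ j = j' ∧ k = k' then 1 else 0) else 0 := by
    intro l
    have hab : ∀ v, S.α p lam l v (i, j) * S.β q mu l v (j', k) = 0 := by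
      intro v
      unfold Scheme.α Scheme.β
      split_ifs with h1 h2
      · exfalso
        exact S.posL_ne_posR (S.posL_mem (i, j)) ⟨_, rfl⟩ (h1.2.2.2.symm.trans h2.2.2)
      · exact mul_zero _
      · exact zero_mul _
      · exact zero_mul _
    have hb : ∀ j₁, (S.e (S.σ l.2.2.1 (S.t i')), j₁) ∈ P →
        S.β q mu l (π (S.e (S.σ l.2.2.1 (S.t i')), j₁)) (j', k) = 0 := by
      intro j₁ hj₁
      unfold Scheme.β
      rw [if_neg]
      rintro ⟨-, -, h3⟩
      exact S.posL_ne_posR hj₁ ⟨_, rfl⟩ h3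
    unfold Scheme.z
    by_cases hg : S.g i' = l.1
    · rw [if_pos hg, mix_pEntry π hP ρ hQ (S.pt lam mu) _ _ hab _ _ hb]
      have hF := fun j₁ => S.factor_left p lam mu hπ hp l (i, j) i' j₁
      have hH := fun j₁ => S.factor_right q lam mu hρ hq l (j', k) j₁ k'
      simp only [hF, hH]
      by_cases hl : l = (S.g i, S.h j, S.u (S.t i) (S.κ j), S.w (S.κ j) k)
      · rw [if_pos hl]
        by_cases hE : i = i' ∧ j = j' ∧ k = k'
        · rw [if_pos hE]
          obtain ⟨rfl, rfl, rfl⟩ := hE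
          rw [Finset.sum_eq_single (S.κ j)]
          · rw [if_pos, if_pos, one_mul]
            · rw [hl]
              exact ⟨rfl, rfl, rfl, rfl⟩
            · rw [hl]
              exact ⟨rfl, rfl, rfl, rfl, rfl⟩
          · intro j₁ _ hj₁
            rw [if_neg (fun h => hj₁ h.2.2.2.2), zero_mul]
          · simp
        · rw [if_neg hE]
          refine Finset.sum_eq_zero fun j₁ _ => ?_
          by_cases h1 : S.g i = l.1 ∧ S.h j = l.2.1 ∧ S.u (S.t i) (S.κ j) = l.2.2.1 ∧
              S.t i = S.t i' ∧ j₁ = S.κ j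
          · rw [if_neg (c := S.h j' = l.2.1 ∧ _), mul_zero]
            rintro ⟨h2, h3, h4, h5⟩
            apply hE
            exact ⟨S.gt_inj _ _ (h1.1.trans hg.symm) h1.2.2.2.1,
              S.hk_inj _ _ (h1.2.1.trans h2.symm) (h1.2.2.2.2.symm.trans h4), h5⟩
          · rw [if_neg h1, zero_mul]
      · rw [if_neg hl]
        refine Finset.sum_eq_zero fun j₁ _ => ?_
        by_cases h1 : S.g i = l.1 ∧ S.h j = l.2.1 ∧ S.u (S.t i) (S.κ j) = l.2.2.1 ∧
            S.t i = S.t i' ∧ j₁ = S.κ j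
        · rw [if_neg (c := S.h j' = l.2.1 ∧ _), mul_zero]
          rintro ⟨h2, h3, h4, h5⟩
          apply hl
          have h6 : j = j' := S.hk_inj _ _ (h1.2.1.trans h2.symm) (h1.2.2.2.2.symm.trans h4)
          rw [h1.1, h1.2.1, h1.2.2.1, h6, h3]
        · rw [if_neg h1, zero_mul]
    · rw [if_neg hg, mix_zero]
      by_cases hl : l = (S.g i, S.h j, S.u (S.t i) (S.κ j), S.w (S.κ j) k)
      · rw [if_pos hl, if_neg]
        rintro ⟨rfl, -, -⟩
        apply hg
        rw [hl]
      · rw [if_neg hl]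
  rw [Finset.sum_congr rfl fun l _ => hterm l, Finset.sum_ite_eq' Finset.univ,
    if_pos (Finset.mem_univ _)]

/-- the cost of the directions -/
theorem Scheme.cost_forms (hπ : Set.InjOn π P) (hρ : Set.InjOn ρ Q) :
    Cost (inputs K (Vars m))
      (Set.range (fun t : (Fin G × Fin H × Fin U × Fin W) × V => aF (S.α p lam t.1) t.2) ∪
        Set.range (fun t : (Fin G × Fin H × Fin U × Fin W) × V => bF (S.β q mu t.1) t.2))
      (2 * m ^ 2) := by
  classical
  have h0 : (0 : MvPolynomial (Vars m) K) ∈ inputs K (Vars m) := Or.inr ⟨0, map_zero _⟩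
  have hA : Cost (inputs K (Vars m)) (Set.range fun x : Fin m × Fin m =>
      (C (S.ca p lam x) * X (Sum.inl x) : MvPolynomial (Vars m) K))
      (Fintype.card (Fin m × Fin m) * 1) := by
    refine Cost.range fun x => ?_
    exact Cost.mul (Or.inr ⟨_, rfl⟩) (Or.inl ⟨_, rfl⟩)
  have hB : Cost (inputs K (Vars m)) (Set.range fun y : Fin m × Fin m =>
      (C (S.cb q mu y) * X (Sum.inr y) : MvPolynomial (Vars m) K))
      (Fintype.card (Fin m × Fin m) * 1) := by
    refine Cost.range fun x => ?_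
    exact Cost.mul (Or.inr ⟨_, rfl⟩) (Or.inl ⟨_, rfl⟩)
  have hAB := (hA.union hB).comp (Cost.of_subset (T := inputs K (Vars m) ∪
      ((Set.range fun x : Fin m × Fin m =>
      (C (S.ca p lam x) * X (Sum.inl x) : MvPolynomial (Vars m) K)) ∪
      (Set.range fun y : Fin m × Fin m =>
      (C (S.cb q mu y) * X (Sum.inr y) : MvPolynomial (Vars m) K)))) subset_rfl 0)
  refine hAB.mono subset_rfl ?_ (le_of_eq ?_)
  · rintro _ (⟨⟨l, v⟩, rfl⟩ | ⟨⟨l, v⟩, rfl⟩)
    · by_cases hex : ∃ x, S.g x.1 = l.1 ∧ S.h x.2 = l.2.1 ∧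
          S.u (S.t x.1) (S.κ x.2) = l.2.2.1 ∧ v = π (S.posL x)
      · obtain ⟨x, hx⟩ := hex
        have : aF (S.α p lam l) v = C (S.ca p lam x) * X (Sum.inl x) := by
          unfold aF
          rw [Finset.sum_eq_single x]
          · unfold Scheme.α
            rw [if_pos hx]
          · intro x' _ hx'
            have : S.α p lam l v x' = 0 := by
              unfold Scheme.α
              rw [if_neg]
              intro h
              apply hx'
              have h1 := hπ (S.posL_mem x') (S.posL_mem x) (h.2.2.2.symm.trans hx.2.2.2)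
              unfold Scheme.posL at h1
              have h2 := (Prod.ext_iff.mp h1).1
              have h3 := (Prod.ext_iff.mp h1).2
              simp only at h2 h3
              rw [h.2.2.1, hx.2.2.1] at h2
              exact Prod.ext (S.gt_inj _ _ (h.1.trans hx.1.symm)
                ((S.σ _).injective (S.e_inj h2)))
                (S.hk_inj _ _ (h.2.1.trans hx.2.1.symm) h3)
            rw [this, map_zero, zero_mul]
          · simp
        simp only [this]
        exact Or.inl (Or.inl ⟨x, rfl⟩)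
      · have : aF (S.α p lam l) v = 0 := by
          unfold aF
          refine Finset.sum_eq_zero fun x _ => ?_
          have : S.α p lam l v x = 0 := by
            unfold Scheme.α
            rw [if_neg]
            intro h
            exact hex ⟨x, h⟩
          rw [this, map_zero, zero_mul]
        simp only [this]
        exact Or.inr (Or.inl h0)
    · by_cases hex : ∃ y, S.h y.1 = l.2.1 ∧ S.w (S.κ y.1) y.2 = l.2.2.2 ∧ v = ρ (S.posR y)
      · obtain ⟨y, hy⟩ := hex
        have : bF (S.β q mu l) v = C (S.cb q mu y) * X (Sum.inr y) := by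
          unfold bF
          rw [Finset.sum_eq_single y]
          · unfold Scheme.β
            rw [if_pos hy]
          · intro y' _ hy'
            have : S.β q mu l v y' = 0 := by
              unfold Scheme.β
              rw [if_neg]
              intro h
              apply hy'
              have h1 := hρ (S.posR_mem y') (S.posR_mem y) (h.2.2.symm.trans hy.2.2)
              unfold Scheme.posR at h1
              have h2 := (Prod.ext_iff.mp h1).1
              have h3 := (Prod.ext_iff.mp h1).2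
              simp only at h2 h3
              rw [h.2.1, hy.2.1] at h3
              exact Prod.ext (S.hk_inj _ _ (h.1.trans hy.1.symm) h2)
                ((S.τ _).injective h3)
            rw [this, map_zero, zero_mul]
          · simp
        simp only [this]
        exact Or.inl (Or.inr ⟨y, rfl⟩)
      · have : bF (S.β q mu l) v = 0 := by
          unfold bF
          refine Finset.sum_eq_zero fun x _ => ?_
          have : S.β q mu l v x = 0 := by
            unfold Scheme.β
            rw [if_neg]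
            intro h
            exact hex ⟨x, h⟩
          rw [this, map_zero, zero_mul]
        simp only [this]
        exact Or.inr (Or.inl h0)
  · simp only [Fintype.card_prod, Fintype.card_fin]
    ring

include S in
/-- **The bounds which a placement scheme gives.** -/
theorem Scheme.bounds (hP : DeadOff P p) (hQ : DeadOff Q q)
    (hπ : Set.InjOn π P) (hρ : Set.InjOn ρ Q)
    (hp : ∀ x ∈ P, ∃ c : K, (Polynomial.derivative (p x)).eval c ≠ 0)
    (hq : ∀ x ∈ Q, ∃ c : K, (Polynomial.derivative (q x)).eval c ≠ 0) {s : ℕ}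
    (hC : Cost (inputs K V) (pOut π p ρ q) s) :
    Cost (inputs K (Vars m)) (outMM K m) (2 * m ^ 2 + G * H * U * W * (16 * s + m ^ 2)) ∧
      trank K m m m ≤ 2 * (G * H * U * W) * s := by
  classical
  have hp' : ∀ x : Fin m × Fin m, ∃ c : K, x ∈ P → (Polynomial.derivative (p x)).eval c ≠ 0 := by
    intro x
    by_cases hx : x ∈ P
    · obtain ⟨c, hc⟩ := hp x hx
      exact ⟨c, fun _ => hc⟩
    · exact ⟨0, fun h => absurd h hx⟩
  have hq' : ∀ x : Fin m × Fin m, ∃ c : K, x ∈ Q → (Polynomial.derivative (q x)).eval c ≠ 0 := by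
    intro x
    by_cases hx : x ∈ Q
    · obtain ⟨c, hc⟩ := hq x hx
      exact ⟨c, fun _ => hc⟩
    · exact ⟨0, fun h => absurd h hx⟩
  choose lam hlam using hp'
  choose mu hmu using hq'
  have hred := S.reduces p q lam mu hP hQ hπ hρ hlam hmu
  have hcard : Fintype.card (Fin G × Fin H × Fin U × Fin W) = G * H * U * W := by
    simp only [Fintype.card_prod, Fintype.card_fin]
    ring
  refine ⟨(core_cost hred hC (S.cost_forms p q lam mu hπ hρ)).mono subset_rfl subset_rfl
    (le_of_eq ?_), ?_⟩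
  · rw [hcard]
    ring
  · have := core_rank hred hC
    rwa [hcard] at this

end scheme

end Pool.Agent.H239.MX
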