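import Pool.Agent.H239.MX.Part3

set_option autoImplicit false
set_option linter.unusedSectionVars false

namespace Pool.Agent.H239.MX

open Finset

/-! ### Hitting sets -/

theorem exists_hit {X G : Type} [Fintype G] [Nonempty G] [DecidableEq X] [DecidableEq G]
    (Good : X → Finset G) (δ : ℝ) (T : Finset X)
    (h : ∀ x ∈ T, δ * (Fintype.card G : ℝ) ≤ (Good x).card) (N : ℕ) :
    ∃ a : Fin N → G,
      ((T.filter fun x => ∀ t, a t ∉ Good x).card : ℝ) ≤ T.card * Real.exp (-δ) ^ N := by
  classical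
  induction N with
  | zero =>
    refine ⟨fun t => t.elim0, ?_⟩
    rw [pow_zero, mul_one]
    exact_mod_cast Finset.card_filter_le _ _
  | succ N ih =>
    obtain ⟨a, ha⟩ := ih
    set R := T.filter fun x => ∀ t, a t ∉ Good x with hR
    have hstep : ∃ a' : G, ((R.filter fun x => a' ∉ Good x).card : ℝ) ≤ (1 - δ) * R.card := by
      by_contra hcon
      push Not at hcon
      have h1 : ∑ a' : G, ((R.filter fun x => a' ∉ Good x).card : ℝ) =
          ∑ x ∈ R, ((Fintype.card G : ℝ) - (Good x).card) := by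
        have h2 : ∑ a' : G, (R.filter fun x => a' ∉ Good x).card =
            ∑ x ∈ R, (Finset.univ.filter fun a' : G => a' ∉ Good x).card := by
          simp only [Finset.card_filter]
          exact Finset.sum_comm
        have h3 : ∀ x, ((Finset.univ.filter fun a' : G => a' ∉ Good x).card : ℝ) =
            (Fintype.card G : ℝ) - (Good x).card := by
          intro x
          have h4 : (Finset.univ.filter fun a' : G => a' ∉ Good x) = (Good x)ᶜ := by
            ext; simp
          rw [h4, Finset.card_compl, Nat.cast_sub (Finset.card_le_univ _)]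
        rw [← Nat.cast_sum, h2, Nat.cast_sum]
        exact Finset.sum_congr rfl fun x _ => h3 x
      have h4 : ∑ x ∈ R, ((Fintype.card G : ℝ) - (Good x).card) ≤
          R.card * ((1 - δ) * Fintype.card G) := by
        rw [← nsmul_eq_mul, ← Finset.sum_const]
        refine Finset.sum_le_sum fun x hx => ?_
        have := h x (Finset.mem_filter.mp hx).1
        linarith
      have h5 : ∑ _a : G, (1 - δ) * (R.card : ℝ) <
          ∑ a' : G, ((R.filter fun x => a' ∉ Good x).card : ℝ) :=
        Finset.sum_lt_sum_of_nonempty Finset.univ_nonempty fun a' _ => hcon a'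
      rw [Finset.sum_const, Finset.card_univ, nsmul_eq_mul, h1] at h5
      nlinarith
    obtain ⟨a', ha'⟩ := hstep
    refine ⟨Fin.snoc a a', ?_⟩
    have h1 : (T.filter fun x => ∀ t : Fin (N + 1),
        (Fin.snoc a a' : Fin (N + 1) → G) t ∉ Good x) = R.filter fun x => a' ∉ Good x := by
      ext x
      simp only [hR, Finset.mem_filter]
      constructor
      · rintro ⟨h0, h⟩
        refine ⟨⟨h0, fun t => ?_⟩, ?_⟩
        · have := h t.castSucc
          rwa [Fin.snoc_castSucc] at this
        · have := h (Fin.last N)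
          rwa [Fin.snoc_last] at this
      · rintro ⟨⟨h0, h1⟩, h2⟩
        refine ⟨h0, fun t => ?_⟩
        refine Fin.lastCases ?_ (fun t => ?_) t
        · rwa [Fin.snoc_last]
        · rw [Fin.snoc_castSucc]
          exact h1 t
    rw [h1, pow_succ]
    have h2 : 1 - δ ≤ Real.exp (-δ) := by
      have := Real.add_one_le_exp (-δ)
      linarith
    calc ((R.filter fun x => a' ∉ Good x).card : ℝ) ≤ (1 - δ) * R.card := ha'
      _ ≤ Real.exp (-δ) * R.card := mul_le_mul_of_nonneg_right h2 (Nat.cast_nonneg _)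
      _ ≤ Real.exp (-δ) * (T.card * Real.exp (-δ) ^ N) :=
          mul_le_mul_of_nonneg_left ha (Real.exp_pos _).le
      _ = _ := by ring

theorem exists_hit_all {X G : Type} [Fintype G] [Nonempty G] [DecidableEq X] [DecidableEq G]
    (Good : X → Finset G) {ε : ℝ} (hε : 0 < ε) (T : Finset X)
    (h : ∀ x ∈ T, ε / 4 * (Fintype.card G : ℝ) ≤ (Good x).card) {m : ℕ} (hm : 1 ≤ m)
    (hT : T.card ≤ m ^ 2) :
    ∃ a : Fin (⌊8 * Real.log m / ε⌋₊ + 1) → G, ∀ x ∈ T, ∃ t, a t ∈ Good x := by
  have hN1 : 8 * Real.log m / ε < ((⌊8 * Real.log m / ε⌋₊ + 1 : ℕ) : ℝ) := by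
    push_cast
    exact Nat.lt_floor_add_one _
  generalize ⌊8 * Real.log m / ε⌋₊ + 1 = N at hN1 ⊢
  obtain ⟨a, ha⟩ := exists_hit Good (ε / 4) T h N
  refine ⟨a, fun x hx => ?_⟩
  by_contra hcon
  push Not at hcon
  have h1 : (1 : ℝ) ≤ ((T.filter fun x => ∀ t, a t ∉ Good x).card : ℝ) := by
    have : 1 ≤ (T.filter fun x => ∀ t, a t ∉ Good x).card :=
      Finset.card_pos.mpr ⟨x, Finset.mem_filter.mpr ⟨hx, hcon⟩⟩
    exact_mod_cast this
  have hm0 : (0 : ℝ) < m := by exact_mod_cast hm
  rw [div_lt_iff₀ hε] at hN1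
  have h2 : (T.card : ℝ) * Real.exp (-(ε / 4)) ^ N < 1 := by
    have hT' : (T.card : ℝ) ≤ (m : ℝ) ^ 2 := by exact_mod_cast hT
    have h3 : (m : ℝ) ^ 2 * Real.exp (-(ε / 4)) ^ N < 1 := by
      rw [← Real.exp_nat_mul]
      have h4 : (m : ℝ) ^ 2 = Real.exp (2 * Real.log m) := by
        rw [two_mul, Real.exp_add, Real.exp_log hm0, pow_two]
      rw [h4, ← Real.exp_add, Real.exp_lt_one_iff]
      nlinarith
    exact (mul_le_mul_of_nonneg_right hT' (by positivity)).trans_lt h3
  linarith

/-! ### Windows of rows -/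

/-- the rows of a window -/
def win {m c : ℕ} [NeZero m] (hc : c ≤ m) (s : Fin m) (r : Fin c) : Fin m :=
  s + Fin.castLE hc r

theorem win_inj {m c : ℕ} [NeZero m] (hc : c ≤ m) (s : Fin m) :
    Function.Injective (win hc s) := by
  intro r r' h
  unfold win at h
  exact Fin.castLE_injective hc (add_left_cancel h)

theorem exists_window {m c : ℕ} [NeZero m] (hc : c ≤ m) (P : Finset (Fin m × Fin m)) :
    ∃ s : Fin m, c * P.card ≤
      m * ∑ j, (univ.filter fun r : Fin c => (win hc s r, j) ∈ P).card := by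
  classical
  by_contra hcon
  push Not at hcon
  have h1 : ∑ s : Fin m, ∑ j, (univ.filter fun r : Fin c => (win hc s r, j) ∈ P).card =
      c * P.card := by
    have h2 : ∀ s : Fin m, ∑ j, (univ.filter fun r : Fin c => (win hc s r, j) ∈ P).card =
        ∑ r : Fin c, ∑ j, if (win hc s r, j) ∈ P then 1 else 0 := by
      intro s
      simp only [Finset.card_filter]
      exact Finset.sum_comm
    simp only [h2]
    rw [Finset.sum_comm]
    have h3 : ∀ r : Fin c, ∑ s : Fin m, ∑ j, (if (win hc s r, j) ∈ P then 1 else 0) =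
        P.card := by
      intro r
      have h4 : ∑ s : Fin m, ∑ j, (if (win hc s r, j) ∈ P then 1 else 0) =
          ∑ s : Fin m, ∑ j, (if (s, j) ∈ P then 1 else 0) :=
        Equiv.sum_comp (Equiv.addRight (Fin.castLE hc r))
          (fun s => ∑ j, (if (s, j) ∈ P then 1 else 0))
      rw [h4, ← Fintype.sum_prod_type (f := fun x : Fin m × Fin m => if x ∈ P then 1 else 0)]
      simp
    rw [Finset.sum_congr rfl fun r _ => h3 r]
    simp
  have h5 : ∑ s : Fin m, m * ∑ j, (univ.filter fun r : Fin c => (win hc s r, j) ∈ P).card <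
      ∑ _s : Fin m, c * P.card :=
    Finset.sum_lt_sum_of_nonempty ⟨0, Finset.mem_univ _⟩ fun s _ => hcon s
  rw [← Finset.mul_sum, h1, Finset.sum_const, Finset.card_univ, Fintype.card_fin,
    smul_eq_mul] at h5
  exact lt_irrefl _ h5

end Pool.Agent.H239.MX
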