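import Pool.Agent.H239.MX.Part4

set_option autoImplicit false
set_option linter.unusedSectionVars false

namespace Pool.Agent.H239.MX

open Finset

variable {V : Type} [Fintype V] [DecidableEq V] {m : ℕ}

open Classical in
/-- the positions of `Q` whose variables do not occur in the window -/
noncomputable def rest {c : ℕ} (P Q : Finset (Fin m × Fin m)) (π ρ : Fin m × Fin m → V)
    (e : Fin c → Fin m) : Finset (Fin m × Fin m) :=
  Q.filter fun y => ∀ x ∈ P, (∃ r, e r = x.1) → π x ≠ ρ y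

theorem card_rest {c : ℕ} (P Q : Finset (Fin m × Fin m)) (π ρ : Fin m × Fin m → V)
    (e : Fin c → Fin m) (hρ : Set.InjOn ρ Q) :
    Q.card ≤ (rest P Q π ρ e).card + c * m := by
  classical
  have h1 : (Q.filter fun y => ¬ ∀ x ∈ P, (∃ r, e r = x.1) → π x ≠ ρ y).card ≤ c * m := by
    have h2 : ((Q.filter fun y => ¬ ∀ x ∈ P, (∃ r, e r = x.1) → π x ≠ ρ y).image ρ) ⊆
        (univ : Finset (Fin c × Fin m)).image fun y => π (e y.1, y.2) := by
      intro v hv
      obtain ⟨y, hy, rfl⟩ := Finset.mem_image.mp hv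
      have hy2 := (Finset.mem_filter.mp hy).2
      push Not at hy2
      obtain ⟨x, -, ⟨r, hr⟩, hx⟩ := hy2
      refine Finset.mem_image.mpr ⟨(r, x.2), Finset.mem_univ _, ?_⟩
      rw [← hx, hr]
    have h3 : ((Q.filter fun y => ¬ ∀ x ∈ P, (∃ r, e r = x.1) → π x ≠ ρ y).image ρ).card =
        (Q.filter fun y => ¬ ∀ x ∈ P, (∃ r, e r = x.1) → π x ≠ ρ y).card := by
      refine Finset.card_image_of_injOn ?_
      intro y hy y' hy' h
      exact hρ (Finset.mem_filter.mp hy).1 (Finset.mem_filter.mp hy').1 h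
    rw [← h3]
    refine (Finset.card_le_card h2).trans (Finset.card_image_le.trans (le_of_eq ?_))
    rw [Finset.card_univ, Fintype.card_prod, Fintype.card_fin, Fintype.card_fin]
  have h4 := Finset.card_filter_add_card_filter_not (s := Q)
    (fun y => ∀ x ∈ P, (∃ r, e r = x.1) → π x ≠ ρ y)
  unfold rest
  omega

theorem sum_rows (Q : Finset (Fin m × Fin m)) :
    ∑ j, (univ.filter fun k : Fin m => (j, k) ∈ Q).card = Q.card := by
  classical
  simp only [Finset.card_filter]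
  rw [← Fintype.sum_prod_type (f := fun x : Fin m × Fin m => if x ∈ Q then 1 else 0)]
  simp

theorem sum_cols (Q : Finset (Fin m × Fin m)) :
    ∑ j, (univ.filter fun i : Fin m => (i, j) ∈ Q).card = Q.card := by
  classical
  simp only [Finset.card_filter]
  rw [← Fintype.sum_prod_type_right (f := fun x : Fin m × Fin m => if x ∈ Q then 1 else 0)]
  simp

theorem markov {s : Finset (Fin m)} {f : Fin m → ℝ} {M t : ℝ} (hM : ∀ j ∈ s, f j ≤ M)
    (ht : 0 ≤ t) : ∑ j ∈ s, f j ≤ M * (s.filter fun j => t ≤ f j).card + t * s.card := by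
  classical
  have h1 : ∀ j ∈ s, f j ≤ (if t ≤ f j then M else 0) + t := by
    intro j hj
    split_ifs with h
    · linarith [hM j hj]
    · linarith [not_le.mp h]
  refine (Finset.sum_le_sum h1).trans (le_of_eq ?_)
  rw [Finset.sum_add_distrib, Finset.sum_const, nsmul_eq_mul, ← Finset.sum_filter,
    Finset.sum_const, nsmul_eq_mul]
  ring

/-- the number of elementary products -/
def terms (P Q : Finset (Fin m × Fin m)) : ℕ :=
  (univ.filter fun t : Fin m × Fin m × Fin m => (t.1, t.2.1) ∈ P ∧ (t.2.1, t.2.2) ∈ Q).card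

theorem terms_eq (P Q : Finset (Fin m × Fin m)) : terms P Q =
    ∑ j, (univ.filter fun i : Fin m => (i, j) ∈ P).card *
      (univ.filter fun k : Fin m => (j, k) ∈ Q).card := by
  classical
  unfold terms
  simp only [Finset.card_filter, Finset.sum_mul_sum]
  rw [Fintype.sum_prod_type]
  simp only [Fintype.sum_prod_type]
  rw [Finset.sum_comm]
  refine Finset.sum_congr rfl fun j _ => Finset.sum_congr rfl fun i _ =>
    Finset.sum_congr rfl fun k _ => ?_
  by_cases h1 : (i, j) ∈ P <;> by_cases h2 : (j, k) ∈ Q <;> simp [h1, h2]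

/-- total density more than one gives many elementary products -/
theorem terms_ge (hm : 0 < m) (P Q : Finset (Fin m × Fin m)) {ε : ℝ}
    (h : (1 + ε) * (m : ℝ) ^ 2 ≤ (P.card : ℝ) + Q.card) :
    ε * (m : ℝ) ^ 3 ≤ terms P Q := by
  classical
  rw [terms_eq]
  push_cast
  have hm0 : (0 : ℝ) < m := by exact_mod_cast hm
  have h1 : ∀ j : Fin m, (m : ℝ) * (((univ.filter fun i : Fin m => (i, j) ∈ P).card : ℝ) +
      ((univ.filter fun k : Fin m => (j, k) ∈ Q).card : ℝ) - m) ≤
      ((univ.filter fun i : Fin m => (i, j) ∈ P).card : ℝ) *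
        ((univ.filter fun k : Fin m => (j, k) ∈ Q).card : ℝ) := by
    intro j
    have h2 : ((univ.filter fun i : Fin m => (i, j) ∈ P).card : ℝ) ≤ m := by
      have := Finset.card_le_univ (univ.filter fun i : Fin m => (i, j) ∈ P)
      rw [Fintype.card_fin] at this
      exact_mod_cast this
    have h3 : ((univ.filter fun k : Fin m => (j, k) ∈ Q).card : ℝ) ≤ m := by
      have := Finset.card_le_univ (univ.filter fun k : Fin m => (j, k) ∈ Q)
      rw [Fintype.card_fin] at this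
      exact_mod_cast this
    nlinarith [mul_nonneg (sub_nonneg.2 h2) (sub_nonneg.2 h3)]
  refine le_trans ?_ (Finset.sum_le_sum fun j _ => h1 j)
  rw [← Finset.mul_sum, Finset.sum_sub_distrib, Finset.sum_add_distrib, Finset.sum_const,
    Finset.card_univ, Fintype.card_fin, nsmul_eq_mul]
  have h4 : ∑ j : Fin m, ((univ.filter fun i : Fin m => (i, j) ∈ P).card : ℝ) = P.card := by
    exact_mod_cast sum_cols P
  have h5 : ∑ j : Fin m, ((univ.filter fun k : Fin m => (j, k) ∈ Q).card : ℝ) = Q.card := by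
    exact_mod_cast sum_rows Q
  rw [h4, h5]
  nlinarith

/-- the useful columns of the left and rows of the right matrix -/
theorem card_useful {ε : ℝ} (hε : 0 < ε) {c : ℕ} (hc : 0 < c) (hm : 0 < m)
    (hcm : (c : ℝ) ≤ ε ^ 3 * m / 64) (a b a' b' : Fin m → ℕ) (ha : ∀ j, a j ≤ m)
    (hb : ∀ j, b j ≤ m) (hab : ε * (m : ℝ) ^ 3 ≤ ∑ j, (a j : ℝ) * b j)
    (ha' : ∀ j, a' j ≤ c)
    (ha'0 : ∀ j, ¬ (ε / 2 * m ≤ a j ∧ ε / 2 * m ≤ b j) → a' j = 0)
    (hA : (c : ℝ) * ∑ j ∈ univ.filter (fun j => ε / 2 * m ≤ a j ∧ ε / 2 * m ≤ b j), (a j : ℝ) ≤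
      m * ∑ j, (a' j : ℝ))
    (hb' : ∀ j, b' j ≤ b j) (hB : ∑ j, (b j : ℝ) ≤ ∑ j, (b' j : ℝ) + c * m) :
    ε ^ 2 / 16 * m ≤
      ((univ.filter fun j : Fin m => ε / 4 * c ≤ a' j ∧ ε / 4 * m ≤ b' j).card : ℝ) := by
  classical
  have hm0 : (0 : ℝ) < m := by exact_mod_cast hm
  have hc0 : (0 : ℝ) < c := by exact_mod_cast hc
  have haR : ∀ j, (a j : ℝ) ≤ m := fun j => by exact_mod_cast ha j
  have hbR : ∀ j, (b j : ℝ) ≤ m := fun j => by exact_mod_cast hb j
  set J₀ := univ.filter (fun j : Fin m => ε / 2 * m ≤ a j ∧ ε / 2 * m ≤ b j) with hJ₀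
  -- the first set is large
  have h0 : ε / 2 * m ≤ (J₀.card : ℝ) := by
    have h1 := markov (s := (univ : Finset (Fin m))) (f := fun j => (a j : ℝ) * b j)
      (M := (m : ℝ) ^ 2) (t := ε / 2 * (m : ℝ) ^ 2) (fun j _ => by
        rw [pow_two]
        exact mul_le_mul (haR j) (hbR j) (Nat.cast_nonneg _) hm0.le) (by positivity)
    have h2 : (univ.filter fun j : Fin m => ε / 2 * (m : ℝ) ^ 2 ≤ (a j : ℝ) * b j) ⊆ J₀ := by
      intro j hj
      have hj := (Finset.mem_filter.mp hj).2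
      refine Finset.mem_filter.mpr ⟨Finset.mem_univ _, ?_, ?_⟩
      · have h3 : (a j : ℝ) * b j ≤ a j * m :=
          mul_le_mul_of_nonneg_left (hbR j) (Nat.cast_nonneg _)
        by_contra hcon
        push Not at hcon
        nlinarith
      · have h3 : (a j : ℝ) * b j ≤ m * b j :=
          mul_le_mul_of_nonneg_right (haR j) (Nat.cast_nonneg _)
        by_contra hcon
        push Not at hcon
        nlinarith
    have h3 : ((univ.filter fun j : Fin m => ε / 2 * (m : ℝ) ^ 2 ≤ (a j : ℝ) * b j).card : ℝ) ≤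
        J₀.card := by exact_mod_cast Finset.card_le_card h2
    rw [Finset.card_univ, Fintype.card_fin] at h1
    have h4 : ε / 2 * (m : ℝ) ^ 3 ≤ (m : ℝ) ^ 2 * J₀.card := by
      have h5 : (m : ℝ) ^ 2 * ((univ.filter fun j : Fin m =>
          ε / 2 * (m : ℝ) ^ 2 ≤ (a j : ℝ) * b j).card : ℝ) ≤ (m : ℝ) ^ 2 * J₀.card :=
        mul_le_mul_of_nonneg_left h3 (by positivity)
      have h6 := hab.trans h1
      have h7 : ε / 2 * (m : ℝ) ^ 2 * m = ε / 2 * (m : ℝ) ^ 3 := by ring
      have h8 : ε * (m : ℝ) ^ 3 = ε / 2 * (m : ℝ) ^ 3 + ε / 2 * (m : ℝ) ^ 3 := by ring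
      linarith
    have h5 : ε / 2 * (m : ℝ) ^ 3 = (m : ℝ) ^ 2 * (ε / 2 * m) := by ring
    rw [h5] at h4
    exact le_of_mul_le_mul_left h4 (by positivity)
  -- the second
  set J₁ := J₀.filter (fun j : Fin m => ε / 4 * (c : ℝ) ≤ a' j) with hJ₁
  have h1 : ε / 4 * (J₀.card : ℝ) ≤ J₁.card := by
    have h2 := markov (s := J₀) (f := fun j => (a' j : ℝ))
      (M := (c : ℝ)) (t := ε / 4 * c) (fun j _ => by exact_mod_cast ha' j) (by positivity)
    have h3 : ∑ j ∈ J₀, (a' j : ℝ) = ∑ j, (a' j : ℝ) := by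
      refine Finset.sum_subset (Finset.subset_univ _) fun j _ hj => ?_
      have : ¬ (ε / 2 * m ≤ a j ∧ ε / 2 * m ≤ b j) := fun h =>
        hj (Finset.mem_filter.mpr ⟨Finset.mem_univ _, h⟩)
      rw [ha'0 j this, Nat.cast_zero]
    rw [h3] at h2
    have h4 : ε / 2 * m * J₀.card ≤ ∑ j ∈ J₀, (a j : ℝ) := by
      have : ∑ _j ∈ J₀, ε / 2 * (m : ℝ) ≤ ∑ j ∈ J₀, (a j : ℝ) :=
        Finset.sum_le_sum fun j hj => (Finset.mem_filter.mp hj).2.1
      rw [Finset.sum_const, nsmul_eq_mul] at this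
      linarith
    have h5 : (c : ℝ) * (ε / 2 * m * J₀.card) ≤ m * (c * J₁.card + ε / 4 * c * J₀.card) :=
      (mul_le_mul_of_nonneg_left h4 hc0.le).trans
        (hA.trans (mul_le_mul_of_nonneg_left h2 hm0.le))
    have h6 : (m * c : ℝ) * (ε / 4 * (J₀.card : ℝ)) ≤ (m * c) * J₁.card := by nlinarith
    exact le_of_mul_le_mul_left h6 (by positivity)
  -- the third
  set J₂ := univ.filter (fun j : Fin m => ε / 4 * c ≤ a' j ∧ ε / 4 * m ≤ b' j) with hJ₂
  have h2 : (J₁.card : ℝ) ≤ J₂.card + (J₁.filter fun j => ¬ ε / 4 * (m : ℝ) ≤ b' j).card := by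
    have h3 := Finset.card_filter_add_card_filter_not (s := J₁) (fun j => ε / 4 * (m : ℝ) ≤ b' j)
    have h4 : (J₁.filter fun j => ε / 4 * (m : ℝ) ≤ b' j) ⊆ J₂ := by
      intro j hj
      have h5 := Finset.mem_filter.mp hj
      exact Finset.mem_filter.mpr ⟨Finset.mem_univ _, (Finset.mem_filter.mp h5.1).2, h5.2⟩
    have h5 := Finset.card_le_card h4
    have h6 : J₁.card ≤ J₂.card + (J₁.filter fun j => ¬ ε / 4 * (m : ℝ) ≤ b' j).card := by
      omega
    exact_mod_cast h6
  have h3 : ε / 4 * m * ((J₁.filter fun j => ¬ ε / 4 * (m : ℝ) ≤ b' j).card : ℝ) ≤ c * m := by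
    have h4 : ∑ _j ∈ (J₁.filter fun j => ¬ ε / 4 * (m : ℝ) ≤ b' j), ε / 4 * (m : ℝ) ≤
        ∑ j ∈ (J₁.filter fun j => ¬ ε / 4 * (m : ℝ) ≤ b' j), ((b j : ℝ) - b' j) := by
      refine Finset.sum_le_sum fun j hj => ?_
      have h5 := Finset.mem_filter.mp hj
      have h6 := (Finset.mem_filter.mp (Finset.mem_filter.mp h5.1).1).2.2
      have h7 := not_le.mp h5.2
      linarith
    have h5 : ∑ j ∈ (J₁.filter fun j => ¬ ε / 4 * (m : ℝ) ≤ b' j), ((b j : ℝ) - b' j) ≤
        ∑ j, ((b j : ℝ) - b' j) := by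
      refine Finset.sum_le_sum_of_subset_of_nonneg (Finset.subset_univ _) fun j _ _ => ?_
      have : (b' j : ℝ) ≤ b j := by exact_mod_cast hb' j
      linarith
    rw [Finset.sum_const, nsmul_eq_mul] at h4
    have h6 : ∑ j, ((b j : ℝ) - b' j) = ∑ j, (b j : ℝ) - ∑ j, (b' j : ℝ) :=
      Finset.sum_sub_distrib _ _
    linarith
  have h4 : ((J₁.filter fun j => ¬ ε / 4 * (m : ℝ) ≤ b' j).card : ℝ) ≤ ε ^ 2 / 16 * m := by
    have h5 : ε / 4 * m * ((J₁.filter fun j => ¬ ε / 4 * (m : ℝ) ≤ b' j).card : ℝ) ≤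
        ε / 4 * m * (ε ^ 2 / 16 * m) := by
      refine h3.trans ?_
      have : (c : ℝ) * m ≤ ε ^ 3 * m / 64 * m := mul_le_mul_of_nonneg_right hcm hm0.le
      refine this.trans (le_of_eq ?_)
      ring
    exact le_of_mul_le_mul_left h5 (by positivity)
  have h5 : ε / 4 * (ε / 2 * m) ≤ (J₁.card : ℝ) :=
    (mul_le_mul_of_nonneg_left h0 (by positivity)).trans h1
  have h6 : ε / 4 * (ε / 2 * m) = ε ^ 2 / 16 * m + ε ^ 2 / 16 * m := by ring
  linarith

theorem exists_scheme {ε : ℝ} (hε : 0 < ε) (hm : 65 / ε ^ 3 ≤ m) (P Q : Finset (Fin m × Fin m))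
    (π ρ : Fin m × Fin m → V) (hρ : Set.InjOn ρ Q)
    (hPQ : ε * (m : ℝ) ^ 3 ≤ terms P Q) :
    ∃ c G H U W : ℕ, Nonempty (Scheme P π Q ρ c G H U W) ∧
      (G * H * U * W : ℝ) ≤ 2227 * (8 * Real.log m + 1) ^ 2 / ε ^ 7 := by
  classical
  have h16 : 0 < 65 / ε ^ 3 := by positivity
  have hm0 : (0 : ℝ) < m := lt_of_lt_of_le h16 hm
  have hmpos : 0 < m := by exact_mod_cast hm0
  have : NeZero m := ⟨hmpos.ne'⟩
  have hm3 : (0 : ℝ) < (m : ℝ) ^ 3 := by positivity
  have hterms : (terms P Q : ℝ) ≤ (m : ℝ) ^ 3 := by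
    have h1 : terms P Q ≤ m ^ 3 := by
      refine (Finset.card_le_univ _).trans (le_of_eq ?_)
      simp only [Fintype.card_prod, Fintype.card_fin]
      ring
    exact_mod_cast h1
  have hε1 : ε ≤ 1 := by
    by_contra hcon
    push Not at hcon
    nlinarith
  have hinv : 1 ≤ 1 / ε := by
    rw [le_div_iff₀ hε]
    linarith
  have hinv2 : 1 ≤ 1 / ε ^ 2 := by
    rw [one_div, ← inv_pow, ← one_div]
    exact one_le_pow₀ hinv
  have hinv3 : 1 ≤ 1 / ε ^ 3 := by
    rw [one_div, ← inv_pow, ← one_div]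
    exact one_le_pow₀ hinv
  -- the size of the window
  set D := ⌈64 / ε ^ 3⌉₊ with hD
  have hD1 : 64 / ε ^ 3 ≤ D := Nat.le_ceil _
  have hD2 : (D : ℝ) < 64 / ε ^ 3 + 1 := Nat.ceil_lt_add_one (by positivity)
  have e65 : 65 / ε ^ 3 = 64 / ε ^ 3 + 1 / ε ^ 3 := by ring
  have e64 : 64 / ε ^ 3 = 64 * (1 / ε ^ 3) := by ring
  have hDm : D ≤ m := by
    have : (D : ℝ) ≤ m := by linarith
    exact_mod_cast this
  have hDpos : 0 < D := by
    have : (0 : ℝ) < D := lt_of_lt_of_le (by positivity) hD1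
    exact_mod_cast this
  set c := m / D with hcdef
  have hcpos : 0 < c := Nat.div_pos hDm hDpos
  have hcm : c ≤ m := Nat.div_le_self _ _
  have hc8 : (c : ℝ) ≤ ε ^ 3 * m / 64 := by
    have h1 : (c : ℝ) ≤ (m : ℝ) / D := Nat.cast_div_le
    have h2 : (m : ℝ) / D ≤ m / (64 / ε ^ 3) :=
      div_le_div_of_nonneg_left hm0.le (by positivity) hD1
    have h3 : (m : ℝ) / (64 / ε ^ 3) = ε ^ 3 * m / 64 := by
      field_simp
    linarith
  have : NeZero c := ⟨hcpos.ne'⟩
  let α : Fin m → ℕ := fun j => (univ.filter fun i : Fin m => (i, j) ∈ P).card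
  let β : Fin m → ℕ := fun j => (univ.filter fun k : Fin m => (j, k) ∈ Q).card
  have hα : ∀ j, α j ≤ m := fun j => by
    have := Finset.card_le_univ (univ.filter fun i : Fin m => (i, j) ∈ P)
    rwa [Fintype.card_fin] at this
  have hβ : ∀ j, β j ≤ m := fun j => by
    have := Finset.card_le_univ (univ.filter fun k : Fin m => (j, k) ∈ Q)
    rwa [Fintype.card_fin] at this
  have hαβ : ε * (m : ℝ) ^ 3 ≤ ∑ j, (α j : ℝ) * β j := by
    refine hPQ.trans (le_of_eq ?_)
    rw [terms_eq]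
    push_cast
    rfl
  set P' := P.filter (fun x => ε / 2 * m ≤ α x.2 ∧ ε / 2 * m ≤ β x.2) with hP'
  obtain ⟨s, hs⟩ := exists_window hcm P'
  set e := win hcm s with he
  set Q' := rest P Q π ρ e with hQ'
  have hQ'card := card_rest P Q π ρ e hρ
  rw [← hQ'] at hQ'card
  let a : Fin m → ℕ := fun j => (univ.filter fun r : Fin c => (e r, j) ∈ P').card
  let b : Fin m → ℕ := fun j => (univ.filter fun k : Fin m => (j, k) ∈ Q').card
  have ha : ∀ j, a j ≤ c := fun j => by
    have := Finset.card_le_univ (univ.filter fun r : Fin c => (e r, j) ∈ P')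
    rwa [Fintype.card_fin] at this
  have hb : ∀ j, b j ≤ β j := fun j => by
    refine Finset.card_le_card fun k hk => ?_
    have hk := (Finset.mem_filter.mp hk).2
    exact Finset.mem_filter.mpr ⟨Finset.mem_univ _, (Finset.mem_filter.mp hk).1⟩
  have hB : ∑ j, (β j : ℝ) ≤ ∑ j, (b j : ℝ) + c * m := by
    have h1 : ∑ j, b j = Q'.card := sum_rows Q'
    have h2 : ∑ j, β j = Q.card := sum_rows Q
    have h3 : ∑ j, β j ≤ ∑ j, b j + c * m := by omega
    exact_mod_cast h3
  have ha0 : ∀ j, ¬ (ε / 2 * m ≤ α j ∧ ε / 2 * m ≤ β j) → a j = 0 := by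
    intro j hj
    refine Finset.card_eq_zero.mpr (Finset.filter_eq_empty_iff.mpr fun r _ hr => ?_)
    exact hj (Finset.mem_filter.mp hr).2
  have hA : (c : ℝ) * ∑ j ∈ univ.filter (fun j => ε / 2 * m ≤ α j ∧ ε / 2 * m ≤ β j),
      (α j : ℝ) ≤ m * ∑ j, (a j : ℝ) := by
    have h1 : ∑ j ∈ univ.filter (fun j => ε / 2 * m ≤ α j ∧ ε / 2 * m ≤ β j), α j =
        P'.card := by
      rw [← sum_cols P', Finset.sum_filter]
      refine Finset.sum_congr rfl fun j _ => ?_
      split_ifs with h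
      · refine congrArg Finset.card (Finset.filter_congr fun i _ => ?_)
        simp only [hP', Finset.mem_filter]
        exact ⟨fun h1 => ⟨h1, h⟩, fun h1 => h1.1⟩
      · symm
        refine Finset.card_eq_zero.mpr (Finset.filter_eq_empty_iff.mpr fun i _ hi => ?_)
        exact h (Finset.mem_filter.mp hi).2
    have h2 : c * ∑ j ∈ univ.filter (fun j => ε / 2 * m ≤ α j ∧ ε / 2 * m ≤ β j), α j ≤
        m * ∑ j, a j := by
      rw [h1]
      exact hs
    exact_mod_cast h2
  have hJ := card_useful hε hcpos hmpos hc8 α β a b hα hβ hαβ ha ha0 hA hb hB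
  set J := univ.filter fun j : Fin m => ε / 4 * c ≤ a j ∧ ε / 4 * m ≤ b j with hJdef
  have hJpos : 0 < J.card := by
    have : (0 : ℝ) < J.card := lt_of_lt_of_le (by positivity) hJ
    exact_mod_cast this
  have hJne : J.Nonempty := Finset.card_pos.mp hJpos
  set N := ⌊8 * Real.log m / ε⌋₊ + 1 with hN
  -- shifts of the window
  obtain ⟨a₁, ha₁⟩ : ∃ a₁ : Fin N → Fin c, ∀ x ∈ J ×ˢ (univ : Finset (Fin c)),
      ∃ t, a₁ t ∈ (univ.filter fun y : Fin c => (e (x.2 + y), x.1) ∈ P') := by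
    refine exists_hit_all (X := Fin m × Fin c)
      (fun x => univ.filter fun y : Fin c => (e (x.2 + y), x.1) ∈ P') hε
      (J ×ˢ (univ : Finset (Fin c))) ?_ hmpos ?_
    · intro x hx
      have hx1 := (Finset.mem_filter.mp (Finset.mem_product.mp hx).1).2.1
      have h1 : (univ.filter fun y : Fin c => (e (x.2 + y), x.1) ∈ P').card = a x.1 := by
        refine Finset.card_bij (fun y _ => x.2 + y) ?_ ?_ ?_
        · intro y hy
          simpa using hy
        · intro y _ y' _ h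
          exact add_left_cancel h
        · intro y hy
          refine ⟨y - x.2, ?_, by simp⟩
          simpa using hy
      rw [h1, Fintype.card_fin]
      exact hx1
    · rw [Finset.card_product, Finset.card_univ, Fintype.card_fin, pow_two]
      have := Finset.card_le_univ J
      rw [Fintype.card_fin] at this
      exact Nat.mul_le_mul this hcm
  obtain ⟨a₂, ha₂⟩ : ∃ a₂ : Fin N → Fin m, ∀ x ∈ J ×ˢ (univ : Finset (Fin m)),
      ∃ t, a₂ t ∈ (univ.filter fun y : Fin m => (x.1, x.2 + y) ∈ Q') := by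
    refine exists_hit_all (X := Fin m × Fin m)
      (fun x => univ.filter fun y : Fin m => (x.1, x.2 + y) ∈ Q') hε
      (J ×ˢ (univ : Finset (Fin m))) ?_ hmpos ?_
    · intro x hx
      have hx1 := (Finset.mem_filter.mp (Finset.mem_product.mp hx).1).2.2
      have h1 : (univ.filter fun y : Fin m => (x.1, x.2 + y) ∈ Q').card = b x.1 := by
        refine Finset.card_bij (fun y _ => x.2 + y) ?_ ?_ ?_
        · intro y hy
          simpa using hy
        · intro y _ y' _ h
          exact add_left_cancel h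
        · intro y hy
          refine ⟨y - x.2, ?_, by simp⟩
          simpa using hy
      rw [h1, Fintype.card_fin]
      exact hx1
    · rw [Finset.card_product, Finset.card_univ, Fintype.card_fin, pow_two]
      have := Finset.card_le_univ J
      rw [Fintype.card_fin] at this
      exact Nat.mul_le_mul this le_rfl
  have hu : ∀ (r : Fin c) (j : Fin m), ∃ t : Fin N, j ∈ J → (e (r + a₁ t), j) ∈ P' := by
    intro r j
    by_cases hj : j ∈ J
    · obtain ⟨t, ht⟩ := ha₁ (j, r) (Finset.mem_product.mpr ⟨hj, Finset.mem_univ _⟩)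
      exact ⟨t, fun _ => (Finset.mem_filter.mp ht).2⟩
    · exact ⟨0, fun h => absurd h hj⟩
  have hw : ∀ (j k : Fin m), ∃ t : Fin N, j ∈ J → (j, k + a₂ t) ∈ Q' := by
    intro j k
    by_cases hj : j ∈ J
    · obtain ⟨t, ht⟩ := ha₂ (j, k) (Finset.mem_product.mpr ⟨hj, Finset.mem_univ _⟩)
      exact ⟨t, fun _ => (Finset.mem_filter.mp ht).2⟩
    · exact ⟨0, fun h => absurd h hj⟩
  choose u hu using hu
  choose w hw using hw
  let κ : Fin m → Fin m := fun j =>
    (J.equivFin.symm ⟨(j : ℕ) % J.card, Nat.mod_lt _ hJpos⟩ : J)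
  have hκ : ∀ j, κ j ∈ J := fun j => Subtype.prop _
  refine ⟨c, m / c + 1, m / J.card + 1, N, N, ⟨{
    e := e
    t := fun i => ⟨(i : ℕ) % c, Nat.mod_lt _ hcpos⟩
    g := fun i => ⟨(i : ℕ) / c, by
      have := Nat.div_le_div_right (c := c) i.2.le
      omega⟩
    h := fun j => ⟨(j : ℕ) / J.card, by
      have := Nat.div_le_div_right (c := J.card) j.2.le
      omega⟩
    κ := κ
    σ := fun t => Equiv.addRight (a₁ t)
    τ := fun t => Equiv.addRight (a₂ t)
    u := u
    w := w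
    e_inj := win_inj hcm s
    gt_inj := ?_
    hk_inj := ?_
    memP := fun r j => (Finset.mem_filter.mp (hu r (κ j) (hκ j))).1
    memQ := fun j k => (Finset.mem_filter.mp (hw (κ j) k (hκ j))).1
    notMem := fun j k => (Finset.mem_filter.mp (hw (κ j) k (hκ j))).2 }⟩, ?_⟩
  · intro i i' h1 h2
    have h3 := congrArg Fin.val h1
    have h4 := congrArg Fin.val h2
    simp only at h3 h4
    apply Fin.ext
    rw [← Nat.div_add_mod (i : ℕ) c, ← Nat.div_add_mod (i' : ℕ) c, h3, h4]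
  · intro j j' h1 h2
    have h3 := congrArg Fin.val h1
    simp only at h3
    have h4 : (⟨(j : ℕ) % J.card, Nat.mod_lt _ hJpos⟩ : Fin J.card) =
        ⟨(j' : ℕ) % J.card, Nat.mod_lt _ hJpos⟩ := by
      apply J.equivFin.symm.injective
      exact Subtype.ext h2
    have h5 := congrArg Fin.val h4
    simp only at h5
    apply Fin.ext
    rw [← Nat.div_add_mod (j : ℕ) J.card, ← Nat.div_add_mod (j' : ℕ) J.card, h3, h5]
  · have hlog : 0 ≤ Real.log m := Real.log_nonneg (by exact_mod_cast hmpos)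
    have hG : ((m / c + 1 : ℕ) : ℝ) ≤ 131 / ε ^ 3 := by
      have h1 : m / c ≤ 2 * D := by
        have h2 : m < D * (c + 1) := by
          rw [hcdef]
          have := Nat.lt_mul_div_succ m hDpos
          exact this
        have h3 : D * (c + 1) ≤ 2 * D * c := by nlinarith
        rw [Nat.div_le_iff_le_mul_add_pred hcpos]
        nlinarith
      have h2 : ((m / c + 1 : ℕ) : ℝ) ≤ 2 * D + 1 := by exact_mod_cast Nat.succ_le_succ h1
      have e131 : 131 / ε ^ 3 = 131 * (1 / ε ^ 3) := by ring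
      linarith
    have hH : ((m / J.card + 1 : ℕ) : ℝ) ≤ 17 / ε ^ 2 := by
      have hJ0 : (0 : ℝ) < J.card := by exact_mod_cast hJpos
      have h1 : ((m / J.card : ℕ) : ℝ) ≤ (m : ℝ) / J.card := Nat.cast_div_le
      have h2 : (m : ℝ) / J.card ≤ 16 / ε ^ 2 := by
        rw [div_le_div_iff₀ hJ0 (by positivity)]
        linarith
      push_cast
      have e3 : 17 / ε ^ 2 = 16 / ε ^ 2 + 1 / ε ^ 2 := by ring
      linarith
    have hNN : (N : ℝ) ≤ (8 * Real.log m + 1) / ε := by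
      have h1 : (⌊8 * Real.log m / ε⌋₊ : ℝ) ≤ 8 * Real.log m / ε :=
        Nat.floor_le (by positivity)
      rw [hN, add_div]
      push_cast
      linarith
    have hN0 : (0 : ℝ) ≤ N := Nat.cast_nonneg _
    calc ((m / c + 1 : ℕ) : ℝ) * ((m / J.card + 1 : ℕ) : ℝ) * N * N
        ≤ 131 / ε ^ 3 * (17 / ε ^ 2) * ((8 * Real.log m + 1) / ε) *
          ((8 * Real.log m + 1) / ε) := by
          gcongr
      _ = 2227 * (8 * Real.log m + 1) ^ 2 / ε ^ 7 := by
          field_simp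
          ring

end Pool.Agent.H239.MX
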