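import Pool.Agent.H239.MX.Part5

set_option autoImplicit false
set_option linter.unusedSectionVars false

namespace Pool.Agent.H239.MX

open Finset MvPolynomial Filter Pool.Agent.H522R2 Pool.Agent.H522R2.Circuit Pool.Agent.W956.KF
  Pool.Agent.H88R3.MM Pool.Agent.H826R3.SM
open Pool.Agent.H239.SP (cost_aeval trank_le_sizeMM EvSuperlinear superlinear_sizeMM)

variable {K : Type} [Field K]

/-! ### Functions squeezed between the rank and the size -/

/-- **Growth of a function between the rank (up to small powers) and the size.** -/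
theorem growth_of_bounds {F : ℕ → ℕ} {A : ℝ} (hA0 : 0 ≤ A)
    (hup1 : ∀ m, (F m : ℝ) ≤ A * sizeMM K m)
    (hlow0 : ∀ δ : ℝ, 0 < δ → ∀ᶠ m : ℕ in atTop, (trank K m m m : ℝ) ≤ (m : ℝ) ^ δ * F m) :
    growth F = omega K ∧ (EvSuperlinear F ↔ Superlinear (sizeMM K)) := by
  classical
  rw [omega_eq, superlinear_sizeMM]
  have hup : ∀ τ, omegaMM K < τ → ∃ D : ℝ, ∀ m : ℕ, (F m : ℝ) ≤ D * (m : ℝ) ^ τ := by
    intro τ hτ
    obtain ⟨C, hC⟩ := sizeMM_upper (K := K) hτ
    refine ⟨A * C, fun m => ?_⟩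
    calc (F m : ℝ) ≤ A * sizeMM K m := hup1 m
      _ ≤ A * (C * (m : ℝ) ^ τ) := mul_le_mul_of_nonneg_left (hC m) hA0
      _ = _ := by ring
  have hlow : ∀ δ : ℝ, 0 < δ → ∃ c : ℝ, 0 < c ∧ ∀ᶠ m : ℕ in atTop,
      c * (m : ℝ) ^ (omegaMM K - δ) ≤ F m := by
    intro δ hδ
    refine ⟨1, one_pos, ?_⟩
    filter_upwards [hlow0 δ hδ, eventually_ge_atTop 2] with m h3 hm
    have hm0 : (0 : ℝ) < m := by exact_mod_cast (by omega : 0 < m)
    have h2 := rpow_omega_le K m (by omega)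
    have h5 : (m : ℝ) ^ omegaMM K = (m : ℝ) ^ δ * (m : ℝ) ^ (omegaMM K - δ) := by
      rw [← Real.rpow_add hm0]; congr 1; ring
    have h6 : 0 < (m : ℝ) ^ δ := Real.rpow_pos_of_pos hm0 _
    rw [h5] at h2
    rw [one_mul]
    exact le_of_mul_le_mul_left (h2.trans h3) h6
  have hcmp : ∀ τ D : ℝ, (∃ᶠ m : ℕ in atTop, (F m : ℝ) ≤ D * (m : ℝ) ^ τ) → omegaMM K ≤ τ := by
    intro τ D hfr
    by_contra hcon
    push Not at hcon
    obtain ⟨c, hc, hev⟩ := hlow ((omegaMM K - τ) / 2) (by linarith)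
    have hlim : Tendsto (fun q : ℕ => (q : ℝ) ^ ((omegaMM K - τ) / 2)) atTop atTop :=
      (tendsto_rpow_atTop (by linarith)).comp tendsto_natCast_atTop_atTop
    obtain ⟨m, h1, h2, h3, h4⟩ := (hfr.and_eventually (hev.and
      ((hlim.eventually_gt_atTop (D / c)).and (eventually_ge_atTop 1)))).exists
    have hm0 : (0 : ℝ) < m := by exact_mod_cast h4
    have h5 := h2.trans h1
    have h6 : (m : ℝ) ^ (omegaMM K - (omegaMM K - τ) / 2) =
        (m : ℝ) ^ ((omegaMM K - τ) / 2) * (m : ℝ) ^ τ := by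
      rw [← Real.rpow_add hm0]; congr 1; ring
    have h7 : 0 < (m : ℝ) ^ τ := Real.rpow_pos_of_pos hm0 _
    rw [h6, ← mul_assoc] at h5
    have h8 := le_of_mul_le_mul_right h5 h7
    rw [div_lt_iff₀ hc] at h3
    nlinarith
  constructor
  · apply le_antisymm
    · refine le_of_forall_pos_le_add fun δ hδ => ?_
      refine csInf_le ⟨omegaMM K, ?_⟩ (hup _ (by linarith))
      rintro τ ⟨D, hD⟩
      exact hcmp τ D (Frequently.of_forall hD)
    · refine le_csInf ⟨_, hup _ (lt_add_one _)⟩ ?_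
      rintro τ ⟨D, hD⟩
      exact hcmp τ D (Frequently.of_forall hD)
  · constructor
    · rintro ⟨α, hα, a, ha, h⟩
      by_contra hcon
      push Not at hcon
      obtain ⟨D, hD⟩ := hup (1 + α) (by linarith)
      have hlim : Tendsto (fun q : ℕ => (q : ℝ) ^ (2 * α - (1 + α))) atTop atTop :=
        (tendsto_rpow_atTop (by linarith)).comp tendsto_natCast_atTop_atTop
      obtain ⟨m, hm1, hm2, hm3⟩ := ((hlim.eventually_gt_atTop (D / a)).and
        ((eventually_ge_atTop 1).and h)).exists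
      have hm0 : (0 : ℝ) < m := by exact_mod_cast hm2
      have h1 := hm3.trans (hD m)
      have e1 : ((m : ℝ) ^ 2) ^ α = (m : ℝ) ^ (2 * α - (1 + α)) * (m : ℝ) ^ (1 + α) := by
        rw [← Real.rpow_add hm0, ← Real.rpow_natCast (m : ℝ) 2, ← Real.rpow_mul hm0.le]
        congr 1
        push_cast
        ring
      rw [e1] at h1
      have h2 : 0 < (m : ℝ) ^ (1 + α) := Real.rpow_pos_of_pos hm0 _
      have h3 : D < a * (m : ℝ) ^ (2 * α - (1 + α)) := by
        rw [div_lt_iff₀ ha] at hm1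
        linarith
      have h4 := mul_lt_mul_of_pos_right h3 h2
      linarith [mul_assoc a ((m : ℝ) ^ (2 * α - (1 + α))) ((m : ℝ) ^ (1 + α))]
    · intro h
      obtain ⟨c, hc, hev⟩ := hlow ((omegaMM K - 2) / 2) (by linarith)
      refine ⟨(omegaMM K - (omegaMM K - 2) / 2) / 2, by linarith, c, hc, ?_⟩
      filter_upwards [hev, eventually_ge_atTop 1] with m h1 h2
      have hm0 : (0 : ℝ) < m := by exact_mod_cast h2
      have e1 : ((m : ℝ) ^ 2) ^ ((omegaMM K - (omegaMM K - 2) / 2) / 2) =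
          (m : ℝ) ^ (omegaMM K - (omegaMM K - 2) / 2) := by
        rw [← Real.rpow_natCast (m : ℝ) 2, ← Real.rpow_mul hm0.le]
        congr 1
        push_cast
        ring
      rw [e1]
      exact h1

/-! ### Upper bounds -/

variable {V : Type} [Fintype V] [DecidableEq V] {m : ℕ}

theorem cost_pMat (π : Fin m × Fin m → V)
    (p : Fin m × Fin m → Polynomial K) {d : ℕ} (hd : ∀ x, (p x).natDegree ≤ d) :
    Cost (inputs K V) (Set.range fun x : Fin m × Fin m => pMat π p x.1 x.2)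
      (m ^ 2 * (2 * d)) := by
  classical
  have h1 : ∀ x : Fin m × Fin m, Cost (inputs K V) {pMat π p x.1 x.2} (2 * d) := by
    rintro ⟨j, k⟩
    exact cost_aeval (fun c => C_mem_inputs c) (X_mem_inputs _) d _ (hd _)
  have h2 := Cost.range h1
  simp only [Fintype.card_prod, Fintype.card_fin] at h2
  exact h2.mono subset_rfl subset_rfl (le_of_eq (by ring))

theorem cost_pOut (π : Fin m × Fin m → V) (p : Fin m × Fin m → Polynomial K)
    (ρ : Fin m × Fin m → V) (q : Fin m × Fin m → Polynomial K) {d : ℕ}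
    (hp : ∀ x, (p x).natDegree ≤ d) (hq : ∀ x, (q x).natDegree ≤ d) :
    Cost (inputs K V) (pOut π p ρ q) (sizeMM K m + 4 * d * m ^ 2) := by
  let φ : MvPolynomial (Vars m) K →+* MvPolynomial V K :=
    MvPolynomial.eval₂Hom MvPolynomial.C
      (Sum.elim (fun x => pMat π p x.1 x.2) fun x => pMat ρ q x.1 x.2)
  have h1 : Cost (inputs K V ∪ ((Set.range fun x : Fin m × Fin m => pMat π p x.1 x.2) ∪
      (Set.range fun x : Fin m × Fin m => pMat ρ q x.1 x.2)))
      (pOut π p ρ q) (sizeMM K m) := by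
    refine ((cost_MM_sizeMM K m).map φ).mono ?_ ?_ le_rfl
    · rintro _ ⟨_, ⟨v, rfl⟩ | ⟨c, rfl⟩, rfl⟩
      · rcases v with v | v
        · exact Or.inr (Or.inl ⟨v, by simp [φ]⟩)
        · exact Or.inr (Or.inr ⟨v, by simp [φ]⟩)
      · exact Or.inl (Or.inr ⟨c, by simp [φ]⟩)
    · rintro _ ⟨⟨i, k⟩, rfl⟩
      refine ⟨_, ⟨(i, k), rfl⟩, ?_⟩
      simp only [entryMM, pEntry, map_sum, map_mul]
      refine Finset.sum_congr rfl fun j _ => ?_
      simp [φ]
  exact (((cost_pMat π p hp).union (cost_pMat ρ q hq)).comp h1).mono subset_rfl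
    Set.subset_union_right (le_of_eq (by ring))

/-! ### Sizes -/

/-- The least size of a circuit over `K` which computes the entries of the product. -/
noncomputable def pSize (K : Type) [Field K] {V : Type} {m : ℕ}
    (π : Fin m × Fin m → V) (p : Fin m × Fin m → Polynomial K)
    (ρ : Fin m × Fin m → V) (q : Fin m × Fin m → Polynomial K) : ℕ :=
  sInf {s | ∃ C : Circuit K V,
    (∀ i k : Fin m, ∃ v : Fin C.nodes, C.poly v = pEntry π p ρ q i k) ∧ C.size = s}

variable {π : Fin m × Fin m → V} {p : Fin m × Fin m → Polynomial K} {ρ : Fin m × Fin m → V}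
  {q : Fin m × Fin m → Polynomial K}

theorem pSize_le {s : ℕ} (h : Cost (inputs K V) (pOut π p ρ q) s) :
    pSize K π p ρ q ≤ s := by
  obtain ⟨C, h1, h2⟩ := exists_circuit_of_cost (Set.finite_range _) h
  exact le_trans (Nat.sInf_le ⟨C, fun i k => h2 _ ⟨(i, k), rfl⟩, rfl⟩) h1

theorem cost_of_pcircuit (C : Circuit K V)
    (h : ∀ i k : Fin m, ∃ v : Fin C.nodes, C.poly v = pEntry π p ρ q i k) :
    Cost (inputs K V) (pOut π p ρ q) C.size := by
  refine (cost_of_circuit C).mono subset_rfl ?_ le_rfl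
  rintro _ ⟨⟨i, k⟩, rfl⟩
  exact h i k

theorem cost_pSize {s : ℕ} (h : Cost (inputs K V) (pOut π p ρ q) s) :
    Cost (inputs K V) (pOut π p ρ q) (pSize K π p ρ q) := by
  obtain ⟨C, h1, h2⟩ := exists_circuit_of_cost (Set.finite_range _) h
  obtain ⟨C', h3, h4⟩ := Nat.sInf_mem (s := {s | ∃ C : Circuit K V,
    (∀ i k : Fin m, ∃ v : Fin C.nodes, C.poly v = pEntry π p ρ q i k) ∧ C.size = s})
    ⟨_, C, fun i k => h2 _ ⟨(i, k), rfl⟩, rfl⟩
  have h5 := cost_of_pcircuit C' h3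
  rw [h4] at h5
  exact h5

/-! ### The bounds -/

open Classical in
/-- The positions whose polynomial has a derivative with a nonzero value. -/
noncomputable def live (p : Fin m × Fin m → Polynomial K) : Finset (Fin m × Fin m) :=
  univ.filter fun x => ∃ c : K, (Polynomial.derivative (p x)).eval c ≠ 0

theorem mem_live (p : Fin m × Fin m → Polynomial K) (x : Fin m × Fin m) :
    x ∈ live p ↔ ∃ c : K, (Polynomial.derivative (p x)).eval c ≠ 0 := by
  classical
  unfold live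
  simp

theorem deadOff_live (p : Fin m × Fin m → Polynomial K) : DeadOff (live p) p := by
  intro x hx c
  rw [mem_live] at hx
  push Not at hx
  exact hx c

/-- **Bounds for many elementary products.** -/
theorem terms_bounds {ε : ℝ} (hε : 0 < ε) (hm : 65 / ε ^ 3 ≤ m) (hπ : Set.InjOn π (live p))
    (hρ : Set.InjOn ρ (live q)) (hT : ε * (m : ℝ) ^ 3 ≤ terms (live p) (live q)) {s : ℕ}
    (hC : Cost (inputs K V) (pOut π p ρ q) s) :
    (sizeMM K m : ℝ) ≤
        2 * m ^ 2 + 2227 * (8 * Real.log m + 1) ^ 2 / ε ^ 7 * (16 * s + m ^ 2) ∧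
      (trank K m m m : ℝ) ≤ 4454 * (8 * Real.log m + 1) ^ 2 / ε ^ 7 * s := by
  obtain ⟨c, G, H, U, W, ⟨S⟩, hS⟩ := exists_scheme hε hm (live p) (live q) π ρ hρ hT
  obtain ⟨h1, h2⟩ := S.bounds p q (deadOff_live p) (deadOff_live q) hπ hρ
    (fun x hx => (mem_live p x).1 hx) (fun x hx => (mem_live q x).1 hx) hC
  have h3 := sizeMM_le h1
  constructor
  · have h4 : (sizeMM K m : ℝ) ≤ 2 * m ^ 2 + (G * H * U * W) * (16 * s + m ^ 2) := by
      exact_mod_cast h3
    refine h4.trans ?_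
    gcongr
  · have h4 : (trank K m m m : ℝ) ≤ 2 * (G * H * U * W) * s := by exact_mod_cast h2
    refine h4.trans ?_
    have h5 : 2 * ((G : ℝ) * H * U * W) ≤ 4454 * (8 * Real.log m + 1) ^ 2 / ε ^ 7 := by
      have : 4454 * (8 * Real.log m + 1) ^ 2 / ε ^ 7 =
        2 * (2227 * (8 * Real.log m + 1) ^ 2 / ε ^ 7) := by ring
      rw [this]
      linarith
    exact mul_le_mul_of_nonneg_right h5 (Nat.cast_nonneg _)

theorem eventually_le_rpow {δ : ℝ} (hδ : 0 < δ) (B : ℝ) : ∀ᶠ m : ℕ in atTop, B ≤ (m : ℝ) ^ δ :=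
  ((tendsto_rpow_atTop hδ).comp tendsto_natCast_atTop_atTop).eventually_ge_atTop B

/-- **Growth.** -/
theorem terms_growth (d : ℕ) (V : ℕ → Type) [∀ m, Fintype (V m)] [∀ m, DecidableEq (V m)]
    (π ρ : (m : ℕ) → Fin m × Fin m → V m) (p q : (m : ℕ) → Fin m × Fin m → Polynomial K)
    (hd : ∀ m x, (p m x).natDegree ≤ d ∧ (q m x).natDegree ≤ d)
    (hπ : ∀ m, Set.InjOn (π m) (live (p m))) (hρ : ∀ m, Set.InjOn (ρ m) (live (q m)))
    (hT : ∀ δ : ℝ, 0 < δ → ∀ᶠ m : ℕ in atTop,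
      (m : ℝ) ^ (3 - δ) ≤ terms (live (p m)) (live (q m))) :
    growth (fun m => pSize K (π m) (p m) (ρ m) (q m)) = omega K ∧
      (EvSuperlinear (fun m => pSize K (π m) (p m) (ρ m) (q m)) ↔
        Superlinear (sizeMM K)) := by
  classical
  have hcost : ∀ m, Cost (inputs K (V m)) (pOut (π m) (p m) (ρ m) (q m))
      (sizeMM K m + 4 * d * m ^ 2) := fun m =>
    cost_pOut (π m) (p m) (ρ m) (q m) (fun x => (hd m x).1) (fun x => (hd m x).2)
  refine growth_of_bounds (A := 1 + 48 * d) (by positivity) ?_ ?_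
  · intro m
    have h1 : m ^ 2 ≤ 12 * sizeMM K m := (sq_le_trank K m).trans (trank_le_sizeMM K m)
    have h2 : pSize K (π m) (p m) (ρ m) (q m) ≤ (1 + 48 * d) * sizeMM K m := by
      refine (pSize_le (hcost m)).trans ?_
      have := Nat.mul_le_mul_left (4 * d) h1
      nlinarith
    exact_mod_cast h2
  · intro δ hδ
    set η : ℝ := min (δ / 28) (1 / 6) with hη
    have hη0 : 0 < η := lt_min (by linarith) (by norm_num)
    have hη1 : η ≤ δ / 28 := min_le_left _ _
    have hη2 : η ≤ 1 / 6 := min_le_right _ _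
    filter_upwards [hT η hη0, eventually_ge_atTop 2, eventually_le_rpow (δ := 1 / 2)
      (by norm_num) 65, eventually_le_rpow (δ := δ / 4) (by linarith) 4454,
      eventually_le_rpow (δ := δ / 8) (by linarith) (64 / δ + 1)] with m h1 h2 h3 h4 h10
    have hm0 : (0 : ℝ) < m := by exact_mod_cast (by omega : 0 < m)
    have hm1 : (1 : ℝ) ≤ m := by exact_mod_cast (by omega : 1 ≤ m)
    set ε : ℝ := (m : ℝ) ^ (-η) with hε
    have hε0 : 0 < ε := Real.rpow_pos_of_pos hm0 _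
    have h5 : ε * (m : ℝ) ^ 3 ≤ terms (live (p m)) (live (q m)) := by
      refine le_trans (le_of_eq ?_) h1
      rw [hε, ← Real.rpow_natCast (m : ℝ) 3, ← Real.rpow_add hm0]
      congr 1
      push_cast
      ring
    have h6 : 65 / ε ^ 3 ≤ m := by
      have e1 : 1 / ε ^ 3 = (m : ℝ) ^ (3 * η) := by
        rw [hε, ← Real.rpow_natCast ((m : ℝ) ^ (-η)) 3, ← Real.rpow_mul hm0.le, one_div,
          ← Real.rpow_neg hm0.le]
        congr 1
        push_cast
        ring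
      have e2 : 65 / ε ^ 3 = 65 * (1 / ε ^ 3) := by ring
      rw [e2, e1]
      have h7 : (m : ℝ) ^ (3 * η) ≤ (m : ℝ) ^ (1 / 2 : ℝ) :=
        Real.rpow_le_rpow_of_exponent_le hm1 (by linarith)
      have h8 : (m : ℝ) = (m : ℝ) ^ (1 / 2 : ℝ) * (m : ℝ) ^ (1 / 2 : ℝ) := by
        rw [← Real.rpow_add hm0]
        norm_num
      have h9 : 0 ≤ (m : ℝ) ^ (3 * η) := (Real.rpow_pos_of_pos hm0 _).le
      calc 65 * (m : ℝ) ^ (3 * η) ≤ (m : ℝ) ^ (1 / 2 : ℝ) * (m : ℝ) ^ (1 / 2 : ℝ) :=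
            mul_le_mul h3 h7 h9 (by linarith)
        _ = m := h8.symm
    have h7 := (terms_bounds hε0 h6 (hπ m) (hρ m) h5 (cost_pSize (hcost m))).2
    refine h7.trans (mul_le_mul_of_nonneg_right ?_ (Nat.cast_nonneg _))
    have hlog : 0 ≤ Real.log m := Real.log_nonneg hm1
    have e7 : 1 / ε ^ 7 ≤ (m : ℝ) ^ (δ / 4) := by
      have e1 : 1 / ε ^ 7 = (m : ℝ) ^ (7 * η) := by
        rw [hε, ← Real.rpow_natCast ((m : ℝ) ^ (-η)) 7, ← Real.rpow_mul hm0.le, one_div,
          ← Real.rpow_neg hm0.le]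
        congr 1
        push_cast
        ring
      rw [e1]
      exact Real.rpow_le_rpow_of_exponent_le hm1 (by linarith)
    have e8 : 8 * Real.log m + 1 ≤ (m : ℝ) ^ (δ / 4) := by
      have h11 : Real.log m ≤ (m : ℝ) ^ (δ / 8) / (δ / 8) :=
        Real.log_le_rpow_div hm0.le (by linarith)
      have h12 : 1 ≤ (m : ℝ) ^ (δ / 8) := Real.one_le_rpow hm1 (by linarith)
      have h13 : 8 * ((m : ℝ) ^ (δ / 8) / (δ / 8)) = 64 / δ * (m : ℝ) ^ (δ / 8) := by
        field_simp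
        ring
      calc 8 * Real.log m + 1 ≤ 64 / δ * (m : ℝ) ^ (δ / 8) + 1 * (m : ℝ) ^ (δ / 8) := by
            rw [← h13]; linarith
        _ = (64 / δ + 1) * (m : ℝ) ^ (δ / 8) := by ring
        _ ≤ (m : ℝ) ^ (δ / 8) * (m : ℝ) ^ (δ / 8) :=
            mul_le_mul_of_nonneg_right h10 (by linarith)
        _ = (m : ℝ) ^ (δ / 4) := by
            rw [← Real.rpow_add hm0]
            congr 1
            ring
    have h14 : 0 ≤ (m : ℝ) ^ (δ / 4) := (Real.rpow_pos_of_pos hm0 _).le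
    have h15 : (8 * Real.log m + 1) ^ 2 ≤ ((m : ℝ) ^ (δ / 4)) ^ 2 :=
      pow_le_pow_left₀ (by linarith) e8 2
    calc 4454 * (8 * Real.log m + 1) ^ 2 / ε ^ 7
        = 4454 * (8 * Real.log m + 1) ^ 2 * (1 / ε ^ 7) := by ring
      _ ≤ (m : ℝ) ^ (δ / 4) * ((m : ℝ) ^ (δ / 4)) ^ 2 * (m : ℝ) ^ (δ / 4) := by
          refine mul_le_mul (mul_le_mul h4 h15 (by positivity) h14) e7 (by positivity) ?_
          positivity
      _ = (m : ℝ) ^ δ := by
          rw [← Real.rpow_natCast ((m : ℝ) ^ (δ / 4)) 2, ← Real.rpow_mul hm0.le,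
            ← Real.rpow_add hm0, ← Real.rpow_add hm0]
          congr 1
          push_cast
          ring

end Pool.Agent.H239.MX
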