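import Pool.Agent.H239.MX.Part6

set_option autoImplicit false
set_option linter.unusedSectionVars false

namespace Pool.Agent.H239.MX

open Finset MvPolynomial Filter Pool.Agent.H522R2 Pool.Agent.H522R2.Circuit Pool.Agent.W956.KF
  Pool.Agent.H88R3.MM Pool.Agent.H826R3.SM
open Pool.Agent.H239.SP (cost_aeval trank_le_sizeMM EvSuperlinear superlinear_sizeMM)

variable {K : Type} [Field K]

theorem two_le_omega : 2 ≤ omega K := by
  refine le_csInf ?_ ?_
  · obtain ⟨C, hC⟩ := sizeMM_upper (K := K) (lt_add_one _)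
    refine ⟨omegaMM K + 1, 12 * C, fun m => ?_⟩
    have h1 : (trank K m m m : ℝ) ≤ 12 * sizeMM K m := by exact_mod_cast trank_le_sizeMM K m
    linarith [hC m]
  · rintro τ ⟨D, hD⟩
    by_contra hcon
    push Not at hcon
    have hlim : Tendsto (fun q : ℕ => (q : ℝ) ^ (2 - τ)) atTop atTop :=
      (tendsto_rpow_atTop (by linarith)).comp tendsto_natCast_atTop_atTop
    obtain ⟨m, h1, h2⟩ := ((hlim.eventually_gt_atTop D).and (eventually_ge_atTop 1)).exists
    have hm0 : (0 : ℝ) < m := by exact_mod_cast h2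
    have h3 : ((m ^ 2 : ℕ) : ℝ) ≤ trank K m m m := by exact_mod_cast sq_le_trank K m
    have h4 := h3.trans (hD m)
    have h5 : ((m ^ 2 : ℕ) : ℝ) = (m : ℝ) ^ (2 - τ) * (m : ℝ) ^ τ := by
      rw [← Real.rpow_add hm0]
      push_cast
      rw [← Real.rpow_natCast]
      congr 1
      push_cast
      ring
    rw [h5] at h4
    have h6 := le_of_mul_le_mul_right h4 (Real.rpow_pos_of_pos hm0 _)
    linarith

/-! ### Small blocks -/

/-- the size of the blocks -/
noncomputable def kk (β : ℝ) (m : ℕ) : ℕ := min m ⌈(m : ℝ) ^ (β / 3)⌉₊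

open Classical in
/-- variables in the block, zero outside -/
noncomputable def blockPoly (K : Type) [Field K] (β : ℝ) (m : ℕ) (x : Fin m × Fin m) :
    Polynomial K :=
  if (x.1 : ℕ) < kk β m ∧ (x.2 : ℕ) < kk β m then Polynomial.X else 0

theorem mem_live_block (β : ℝ) (m : ℕ) (x : Fin m × Fin m) :
    x ∈ live (blockPoly K β m) ↔ (x.1 : ℕ) < kk β m ∧ (x.2 : ℕ) < kk β m := by
  rw [mem_live]
  unfold blockPoly
  by_cases h : (x.1 : ℕ) < kk β m ∧ (x.2 : ℕ) < kk β m
  · rw [if_pos h]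
    simp [h]
  · rw [if_neg h]
    simp [h]

theorem kk_le (β : ℝ) (m : ℕ) : kk β m ≤ m := min_le_left _ _

theorem rpow_le_kk {β : ℝ} (hβ : β ≤ 3) {m : ℕ} (hm : 1 ≤ m) :
    (m : ℝ) ^ (β / 3) ≤ kk β m := by
  have hm1 : (1 : ℝ) ≤ m := by exact_mod_cast hm
  unfold kk
  rw [Nat.cast_min]
  refine le_min ?_ (Nat.le_ceil _)
  calc (m : ℝ) ^ (β / 3) ≤ (m : ℝ) ^ (1 : ℝ) :=
        Real.rpow_le_rpow_of_exponent_le hm1 (by linarith)
    _ = m := Real.rpow_one _

theorem kk_le_rpow {β : ℝ} (hβ : 0 ≤ β) {m : ℕ} (hm : 1 ≤ m) :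
    (kk β m : ℝ) ≤ 2 * (m : ℝ) ^ (β / 3) := by
  have hm1 : (1 : ℝ) ≤ m := by exact_mod_cast hm
  have h1 : 1 ≤ (m : ℝ) ^ (β / 3) := Real.one_le_rpow hm1 (by linarith)
  have h2 : (kk β m : ℝ) ≤ (⌈(m : ℝ) ^ (β / 3)⌉₊ : ℝ) := by
    exact_mod_cast min_le_right _ _
  have h3 := Nat.ceil_lt_add_one (a := (m : ℝ) ^ (β / 3)) (by linarith)
  linarith

theorem terms_block {β : ℝ} (hβ0 : 0 < β) (hβ : β ≤ 3) (m : ℕ) :
    (m : ℝ) ^ β ≤ terms (live (blockPoly K β m)) (live (blockPoly K β m)) := by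
  classical
  rcases Nat.eq_zero_or_pos m with rfl | hm
  · rw [Nat.cast_zero, Real.zero_rpow hβ0.ne']
    exact Nat.cast_nonneg _
  have h1 : kk β m ^ 3 ≤ terms (live (blockPoly K β m)) (live (blockPoly K β m)) := by
    let f : Fin (kk β m) × Fin (kk β m) × Fin (kk β m) ↪ Fin m × Fin m × Fin m :=
      ⟨fun t => (Fin.castLE (kk_le β m) t.1, Fin.castLE (kk_le β m) t.2.1,
        Fin.castLE (kk_le β m) t.2.2), by
        rintro ⟨a, b, c⟩ ⟨a', b', c'⟩ h
        simp only [Prod.mk.injEq] at h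
        obtain ⟨h1, h2, h3⟩ := h
        rw [Fin.castLE_injective _ h1, Fin.castLE_injective _ h2, Fin.castLE_injective _ h3]⟩
    have h2 : (univ : Finset (Fin (kk β m) × Fin (kk β m) × Fin (kk β m))).map f ⊆
        univ.filter fun t : Fin m × Fin m × Fin m =>
          (t.1, t.2.1) ∈ live (blockPoly K β m) ∧ (t.2.1, t.2.2) ∈ live (blockPoly K β m) := by
      intro t ht
      obtain ⟨u, -, rfl⟩ := Finset.mem_map.mp ht
      refine Finset.mem_filter.mpr ⟨Finset.mem_univ _, ?_, ?_⟩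
      · rw [mem_live_block]
        exact ⟨u.1.2, u.2.1.2⟩
      · rw [mem_live_block]
        exact ⟨u.2.1.2, u.2.2.2⟩
    have h3 := Finset.card_le_card h2
    rw [Finset.card_map, Finset.card_univ] at h3
    simp only [Fintype.card_prod, Fintype.card_fin] at h3
    refine le_trans (le_of_eq (by ring)) h3
  have h2 : (m : ℝ) ^ β = ((m : ℝ) ^ (β / 3)) ^ 3 := by
    rw [← Real.rpow_natCast, ← Real.rpow_mul (Nat.cast_nonneg _)]
    congr 1
    push_cast
    ring
  have h3 : (((kk β m) ^ 3 : ℕ) : ℝ) ≤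
      terms (live (blockPoly K β m)) (live (blockPoly K β m)) := by exact_mod_cast h1
  rw [h2]
  refine le_trans ?_ h3
  push_cast
  exact pow_le_pow_left₀ (Real.rpow_nonneg (Nat.cast_nonneg _) _) (rpow_le_kk hβ hm) 3

theorem block_size (β : ℝ) (m : ℕ) :
    pSize K (V := (Fin m × Fin m) ⊕ (Fin m × Fin m)) Sum.inl (blockPoly K β m) Sum.inr
      (blockPoly K β m) ≤ sizeMM K (kk β m) := by
  classical
  refine pSize_le ?_
  set k := kk β m with hk
  have hkm : k ≤ m := kk_le β m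
  let φ : MvPolynomial (Vars k) K →+* MvPolynomial (Vars m) K :=
    MvPolynomial.eval₂Hom MvPolynomial.C
      (Sum.elim (fun x => X (Sum.inl (Fin.castLE hkm x.1, Fin.castLE hkm x.2)))
        fun x => X (Sum.inr (Fin.castLE hkm x.1, Fin.castLE hkm x.2)))
  have h0 : (0 : MvPolynomial (Vars m) K) ∈ inputs K (Vars m) := Or.inr ⟨0, map_zero _⟩
  have h1 : Cost (inputs K (Vars m)) (φ '' outMM K k) (sizeMM K k) := by
    refine ((cost_MM_sizeMM K k).map φ).mono ?_ subset_rfl le_rfl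
    rintro _ ⟨_, ⟨v, rfl⟩ | ⟨c, rfl⟩, rfl⟩
    · rcases v with v | v
      · exact Or.inl ⟨_, by simp [φ]; rfl⟩
      · exact Or.inl ⟨_, by simp [φ]; rfl⟩
    · exact Or.inr ⟨c, by simp [φ]⟩
  have h2 : Cost (inputs K (Vars m) ∪ (φ '' outMM K k))
      (pOut (V := (Fin m × Fin m) ⊕ (Fin m × Fin m)) Sum.inl (blockPoly K β m) Sum.inr
        (blockPoly K β m)) 0 := by
    refine Cost.of_subset ?_ _
    rintro _ ⟨⟨i, l⟩, rfl⟩
    by_cases hi : (i : ℕ) < k
    · by_cases hl : (l : ℕ) < k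
      · refine Or.inr ⟨entryMM K k ⟨i, hi⟩ ⟨l, hl⟩, ⟨(_, _), rfl⟩, ?_⟩
        simp only [entryMM, pEntry, map_sum, map_mul]
        refine Fintype.sum_of_injective (Fin.castLE hkm) (Fin.castLE_injective hkm) _ _ ?_ ?_
        · intro j hj
          have hj' : ¬ (j : ℕ) < k := fun h => hj ⟨⟨j, h⟩, Fin.ext rfl⟩
          unfold pMat blockPoly
          rw [if_neg (fun h => hj' h.2), map_zero, zero_mul]
        · intro j
          unfold pMat blockPoly
          rw [if_pos ⟨hi, j.2⟩, if_pos ⟨j.2, hl⟩, Polynomial.aeval_X, Polynomial.aeval_X]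
          simp [φ]
      · refine Or.inl ?_
        have : pEntry (V := (Fin m × Fin m) ⊕ (Fin m × Fin m)) Sum.inl (blockPoly K β m) Sum.inr
            (blockPoly K β m) i l = 0 := by
          unfold pEntry
          refine Finset.sum_eq_zero fun j _ => ?_
          unfold pMat blockPoly
          rw [if_neg (c := _ ∧ ((l : ℕ) < kk β m)) (fun h => hl h.2), map_zero, mul_zero]
        simp only [this]
        exact h0
    · refine Or.inl ?_
      have : pEntry (V := (Fin m × Fin m) ⊕ (Fin m × Fin m)) Sum.inl (blockPoly K β m) Sum.inr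
          (blockPoly K β m) i l = 0 := by
        unfold pEntry
        refine Finset.sum_eq_zero fun j _ => ?_
        unfold pMat blockPoly
        rw [if_neg (c := ((i : ℕ) < kk β m) ∧ _) (fun h => hi h.1), map_zero, zero_mul]
      simp only [this]
      exact h0
  exact (h1.comp h2).mono subset_rfl Set.subset_union_right (by omega)

/-- **The exponent three is optimal.** -/
theorem block_growth {β : ℝ} (hβ0 : 0 < β) (hβ : β < 3) :
    growth (fun m => pSize K (V := (Fin m × Fin m) ⊕ (Fin m × Fin m)) Sum.inl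
      (blockPoly K β m) Sum.inr (blockPoly K β m)) < omega K := by
  have hω := two_le_omega (K := K)
  have hω' : omega K = omegaMM K := omega_eq K
  set τ : ℝ := omega K * (1 + 3 / β) / 2 with hτ
  have h3β : 1 < 3 / β := by
    rw [lt_div_iff₀ hβ0]
    linarith
  have hτ1 : omegaMM K < τ := by
    rw [← hω', hτ]
    nlinarith
  have hτ0 : 0 < τ := by linarith
  obtain ⟨C, hC⟩ := sizeMM_upper (K := K) hτ1
  have hC0 : 0 ≤ C := by
    have := hC 1
    rw [Nat.cast_one, Real.one_rpow, mul_one] at this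
    exact (Nat.cast_nonneg _).trans this
  have key : growth (fun m => pSize K (V := (Fin m × Fin m) ⊕ (Fin m × Fin m)) Sum.inl
      (blockPoly K β m) Sum.inr (blockPoly K β m)) ≤ β / 3 * τ := by
    unfold growth
    have hmem : β / 3 * τ ∈ {τ : ℝ | ∃ D : ℝ, ∀ m : ℕ,
        ((pSize K (V := (Fin m × Fin m) ⊕ (Fin m × Fin m)) Sum.inl
          (blockPoly K β m) Sum.inr (blockPoly K β m) : ℕ) : ℝ) ≤ D * (m : ℝ) ^ τ} := by
      refine ⟨C * 2 ^ τ, fun m => ?_⟩
      have h1 : ((pSize K (V := (Fin m × Fin m) ⊕ (Fin m × Fin m)) Sum.inl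
          (blockPoly K β m) Sum.inr (blockPoly K β m) : ℕ) : ℝ) ≤ sizeMM K (kk β m) := by
        exact_mod_cast block_size β m
      refine h1.trans ((hC _).trans ?_)
      rcases Nat.eq_zero_or_pos m with rfl | hm
      · have h2 : kk β 0 = 0 := Nat.le_zero.1 (kk_le β 0)
        rw [h2, Nat.cast_zero, Real.zero_rpow hτ0.ne', mul_zero, Real.zero_rpow, mul_zero]
        positivity
      · have h2 : (kk β m : ℝ) ^ τ ≤ (2 * (m : ℝ) ^ (β / 3)) ^ τ :=
          Real.rpow_le_rpow (Nat.cast_nonneg _) (kk_le_rpow hβ0.le hm) hτ0.le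
        calc C * (kk β m : ℝ) ^ τ ≤ C * (2 * (m : ℝ) ^ (β / 3)) ^ τ :=
              mul_le_mul_of_nonneg_left h2 hC0
          _ = C * 2 ^ τ * (m : ℝ) ^ (β / 3 * τ) := by
              rw [Real.mul_rpow (by norm_num) (Real.rpow_nonneg (Nat.cast_nonneg _) _),
                ← Real.rpow_mul (Nat.cast_nonneg _)]
              ring
    by_cases hbdd : BddBelow {τ : ℝ | ∃ D : ℝ, ∀ m : ℕ,
        ((pSize K (V := (Fin m × Fin m) ⊕ (Fin m × Fin m)) Sum.inl
          (blockPoly K β m) Sum.inr (blockPoly K β m) : ℕ) : ℝ) ≤ D * (m : ℝ) ^ τ}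
    · exact csInf_le hbdd hmem
    · rw [Real.sInf_of_not_bddBelow hbdd]
      positivity
  refine key.trans_lt ?_
  have h1 : β / 3 * τ = omega K * ((β / 3 + 1) / 2) := by
    rw [hτ]
    field_simp
  rw [h1]
  nlinarith

end Pool.Agent.H239.MX
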